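import Pool.Agent.H17.HX.Base

set_option autoImplicit false

/-! HX-ALL. -/

namespace Pool.Agent.H17.HX

open Finset

variable {n : ℕ}

/-- HX-ALL (30 lines). If two different vertices are not in `Z` use `SS_zero` with this pair; otherwise
`nb G Z = ∅` only for the empty graph. -/
theorem all_sum (Z : Finset (Fin n)) :
    SS (fun G : SimpleGraph (Fin n) => nb G Z = ∅) = if n ≤ #Z + 1 then 1 else 0 := by
  classical
  have hc : #(univ \ Z) = n - #Z := by
    rw [Finset.card_sdiff_of_subset (Finset.subset_univ _), Finset.card_univ, Fintype.card_fin]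
  split_ifs with h
  · have hbot : ∀ G : SimpleGraph (Fin n), nb G Z = ∅ ↔ G = ⊥ := by
      intro G
      constructor
      · intro hG
        ext x y
        simp only [SimpleGraph.bot_adj, iff_false]
        intro hxy
        have hx : x ∉ Z := by
          intro hx
          have : y ∈ nb G Z := mem_nb.2 ⟨x, hx, hxy⟩
          rw [hG] at this
          exact Finset.notMem_empty _ this
        have hy : y ∉ Z := by
          intro hy
          have : x ∈ nb G Z := mem_nb.2 ⟨y, hy, hxy.symm⟩
          rw [hG] at this
          exact Finset.notMem_empty _ this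
        have h2 : 1 < #(univ \ Z) := Finset.one_lt_card.2
          ⟨x, by simpa using hx, y, by simpa using hy, hxy.ne⟩
        omega
      · rintro rfl
        rw [Finset.eq_empty_iff_forall_notMem]
        intro v hv
        obtain ⟨u, -, hu⟩ := mem_nb.1 hv
        exact hu
    unfold SS
    have h2 : ed (⊥ : SimpleGraph (Fin n)) = ∅ := by
      rw [Finset.eq_empty_iff_forall_notMem]
      intro e he
      rw [mem_ed] at he
      simp at he
    refine (Finset.sum_congr (s₂ := ({⊥} : Finset (SimpleGraph (Fin n)))) ?_ fun _ _ => rfl).trans ?_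
    · ext G
      simp [hbot]
    · rw [Finset.sum_singleton, h2]
      simp
  · have h2 : 1 < #(univ \ Z) := by omega
    obtain ⟨a, ha, b, hb, hab⟩ := Finset.one_lt_card.1 h2
    have ha' : a ∉ Z := by simpa using ha
    have hb' : b ∉ Z := by simpa using hb
    refine SS_zero _ s(a, b) (by simpa using hab) fun G hG => ?_
    rw [Finset.eq_empty_iff_forall_notMem] at hG ⊢
    intro v hv
    obtain ⟨u, hu, huv⟩ := mem_nb.1 hv
    rw [tog_adj G hab] at huv
    have hne : s(u, v) ≠ s(a, b) := by
      intro he
      rw [Sym2.eq_iff] at he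
      rcases he with ⟨h1, -⟩ | ⟨h1, -⟩
      · exact ha' (h1 ▸ hu)
      · exact hb' (h1 ▸ hu)
    rw [if_neg hne] at huv
    exact hG v (mem_nb.2 ⟨u, hu, huv⟩)

end Pool.Agent.H17.HX
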