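import Pool.Agent.H17.HX.Base

set_option autoImplicit false

/-! HX-BIN. -/

namespace Pool.Agent.H17.HX

open Finset

/-- HX-BIN: the binomial identity behind the recursion. -/
theorem bin_rec (t m : ℕ) (ht : 1 ≤ t) :
    ∑ j ∈ range (m + 1), (m.choose j : ℤ) * w t j + (m : ℤ) * sg t (m - 1) =
      if m ≤ 1 then 1 else 0 := by
  rcases m with _ | _ | k
  · simp [w]
  · simp [Finset.sum_range_succ, w, sg]
  rw [if_neg (by omega)]
  have hw : ∀ j : ℕ, w t j = (-1 : ℤ) ^ j - if j ≤ t + 1 then (-1 : ℤ) ^ j * j else 0 := by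
    intro j
    unfold w
    split_ifs
    · ring
    · ring
  have h1 : ∑ j ∈ range (k + 2 + 1), ((k + 2).choose j : ℤ) * w t j =
      ∑ j ∈ range (k + 2 + 1), (-1 : ℤ) ^ j * ((k + 2).choose j : ℤ) -
        ∑ j ∈ range (k + 2 + 1), ((k + 2).choose j : ℤ) *
          (if j ≤ t + 1 then (-1 : ℤ) ^ j * j else 0) := by
    rw [← Finset.sum_sub_distrib]
    refine Finset.sum_congr rfl fun j _ => ?_
    rw [hw]
    ring
  have h2 : ∑ j ∈ range (k + 2 + 1), (-1 : ℤ) ^ j * ((k + 2).choose j : ℤ) = 0 :=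
    Int.alternating_sum_range_choose_of_ne (by omega)
  have h3 : ∑ j ∈ range (k + 2 + 1), ((k + 2).choose j : ℤ) *
      (if j ≤ t + 1 then (-1 : ℤ) ^ j * j else 0) =
      -((k + 2 : ℕ) : ℤ) * ∑ i ∈ range (k + 1 + 1),
        (if i ≤ t then (-1 : ℤ) ^ i * ((k + 1).choose i : ℤ) else 0) := by
    rw [Finset.sum_range_succ', Finset.mul_sum]
    have h4 : ((k + 2).choose 0 : ℤ) * (if 0 ≤ t + 1 then (-1 : ℤ) ^ 0 * ((0 : ℕ) : ℤ) else 0) = 0 := by
      simp
    rw [h4, add_zero]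
    refine Finset.sum_congr rfl fun i _ => ?_
    by_cases hi : i ≤ t
    · rw [if_pos (by omega), if_pos hi]
      have h5 : ((k + 2).choose (i + 1) : ℤ) * ((i + 1 : ℕ) : ℤ) =
          ((k + 2 : ℕ) : ℤ) * ((k + 1).choose i : ℤ) := by
        have := Nat.add_one_mul_choose_eq (k + 1) i
        exact_mod_cast this.symm
      calc ((k + 2).choose (i + 1) : ℤ) * ((-1 : ℤ) ^ (i + 1) * ((i + 1 : ℕ) : ℤ))
          = (-1 : ℤ) ^ (i + 1) * (((k + 2).choose (i + 1) : ℤ) * ((i + 1 : ℕ) : ℤ)) := by ring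
        _ = (-1 : ℤ) ^ (i + 1) * (((k + 2 : ℕ) : ℤ) * ((k + 1).choose i : ℤ)) := by rw [h5]
        _ = _ := by ring
    · rw [if_neg (by omega), if_neg hi]
      ring
  have h6 : sg t (k + 1) = -∑ i ∈ range (k + 1 + 1),
        (if i ≤ t then (-1 : ℤ) ^ i * ((k + 1).choose i : ℤ) else 0) := by
    have h7 : ∑ i ∈ range (k + 1 + 1), (-1 : ℤ) ^ i * ((k + 1).choose i : ℤ) = 0 :=
      Int.alternating_sum_range_choose_of_ne (by omega)
    rw [eq_neg_iff_add_eq_zero]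
    refine Eq.trans ?_ h7
    unfold sg
    rw [← Finset.sum_add_distrib]
    refine Finset.sum_congr rfl fun i _ => ?_
    by_cases hi : i ≤ t
    · rw [if_neg (by omega), if_pos hi, zero_add]
    · rw [if_pos (by omega), if_neg hi, add_zero]
  have h8 : k + 1 + 1 - 1 = k + 1 := by omega
  rw [h8, h1, h2, h3, h6]
  ring

end Pool.Agent.H17.HX
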