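import Pool.Agent.H17.HX.Base

set_option autoImplicit false

/-! HX-FRAC. -/

namespace Pool.Agent.H17.HX

open Finset

variable {n : ℕ}

/-- HX-FRAC: fractional matchings of total weight `≥ s` and the neighbourhood condition. -/
theorem frac
    (hall : ∀ (R : Fin n → Fin n → Prop) [DecidableRel R] (t d : ℕ),
      (∀ D : Finset (Fin n), #D ≤ t * #(univ.filter fun v => ∃ u ∈ D, R u v) + d) ↔
      ∃ (S : Finset (Fin n)) (m : Fin n → Fin n), Fintype.card (Fin n) ≤ #S + d ∧
        (∀ v ∈ S, R v (m v)) ∧ ∀ u, #(S.filter fun v => m v = u) ≤ t)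
    (G : SimpleGraph (Fin n)) (s : ℝ) (hs : 2 * s ≤ n) :
    (∃ f : Fin n → Fin n → ℝ, (∀ u v, 0 ≤ f u v) ∧ (∀ u v, f u v = f v u) ∧
      (∀ u v, ¬ G.Adj u v → f u v = 0) ∧ (∀ u, ∑ v, f u v ≤ 1) ∧
      2 * s ≤ ∑ u, ∑ v, f u v) ↔
    ∀ D : Finset (Fin n), (#D : ℝ) - (n - 2 * s) ≤ #(nb G D) := by
  classical
  constructor
  · rintro ⟨f, h0, hsym, hadj, h1, hsum⟩ D
    have h2 : ∑ u, ∑ v, f u v = ∑ u ∈ D, ∑ v, f u v + ∑ u ∈ univ \ D, ∑ v, f u v := by
      rw [add_comm, Finset.sum_sdiff (Finset.subset_univ D)]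
    have h3 : ∑ u ∈ univ \ D, ∑ v, f u v ≤ (n : ℝ) - #D := by
      have h4 : ∑ u ∈ univ \ D, ∑ v, f u v ≤ ∑ u ∈ univ \ D, (1 : ℝ) :=
        Finset.sum_le_sum fun u _ => h1 u
      rw [Finset.sum_const, nsmul_eq_mul, mul_one,
        Finset.card_sdiff_of_subset (Finset.subset_univ D), Finset.card_univ, Fintype.card_fin,
        Nat.cast_sub (by
          have := Finset.card_le_univ D
          rwa [Fintype.card_fin] at this)] at h4
      exact h4
    have h5 : ∑ u ∈ D, ∑ v, f u v ≤ #(nb G D) := by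
      have h6 : ∀ u ∈ D, ∑ v, f u v = ∑ v ∈ nb G D, f u v := by
        intro u hu
        refine (Finset.sum_subset (Finset.subset_univ _) fun v _ hv => ?_).symm
        refine hadj u v fun huv => hv ?_
        exact mem_nb.2 ⟨u, hu, huv⟩
      rw [Finset.sum_congr rfl h6, Finset.sum_comm]
      have h7 : ∑ v ∈ nb G D, ∑ u ∈ D, f u v ≤ ∑ v ∈ nb G D, (1 : ℝ) := by
        refine Finset.sum_le_sum fun v _ => ?_
        refine (Finset.sum_le_univ_sum_of_nonneg fun u => h0 u v).trans ?_
        refine le_trans (le_of_eq ?_) (h1 v)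
        exact Finset.sum_congr rfl fun u _ => hsym u v
      simpa using h7
    linarith
  · intro h
    obtain ⟨d, hd⟩ : ∃ d : ℕ, d = ⌊(n : ℝ) - 2 * s⌋₊ := ⟨_, rfl⟩
    have hns : 0 ≤ (n : ℝ) - 2 * s := by linarith
    have h1 : ∀ D : Finset (Fin n), #D ≤ 1 * #(univ.filter fun v => ∃ u ∈ D, G.Adj u v) + d := by
      intro D
      have h2 : (univ.filter fun v => ∃ u ∈ D, G.Adj u v) = nb G D := by
        ext v
        simp [nb]
      rw [h2, one_mul]
      by_contra hcon
      push Not at hcon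
      have h3 : d + 1 ≤ #D - #(nb G D) := by omega
      have h4 : ((#D - #(nb G D) : ℕ) : ℝ) ≤ (n : ℝ) - 2 * s := by
        rw [Nat.cast_sub (by omega)]
        linarith [h D]
      have h5 : #D - #(nb G D) ≤ d := by
        rw [hd]
        exact Nat.le_floor h4
      omega
    obtain ⟨S, m, hS, hm, hc⟩ := (hall G.Adj 1 d).1 h1
    rw [Fintype.card_fin] at hS
    have hSs : 2 * s ≤ #S := by
      have h2 : (d : ℝ) ≤ (n : ℝ) - 2 * s := by
        rw [hd]
        exact Nat.floor_le hns
      have h3 : (n : ℝ) ≤ #S + d := by exact_mod_cast hS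
      linarith
    obtain ⟨g, hg⟩ : ∃ g : Fin n → Fin n → ℝ, ∀ u v, g u v = if u ∈ S ∧ m u = v then 1 else 0 :=
      ⟨_, fun _ _ => rfl⟩
    have hg0 : ∀ u v, 0 ≤ g u v := fun u v => by
      rw [hg]
      split_ifs <;> norm_num
    have hgs : ∀ u, ∑ v, g u v = if u ∈ S then 1 else 0 := by
      intro u
      by_cases hu : u ∈ S
      · rw [if_pos hu, Finset.sum_eq_single (m u)]
        · rw [hg, if_pos ⟨hu, rfl⟩]
        · intro b _ hb
          rw [hg, if_neg fun h => hb h.2.symm]
        · intro h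
          exact absurd (Finset.mem_univ _) h
      · rw [if_neg hu]
        exact Finset.sum_eq_zero fun v _ => by rw [hg, if_neg fun h => hu h.1]
    have hgt : ∀ v, ∑ u, g u v ≤ 1 := by
      intro v
      have h2 : ∑ u, g u v = #(S.filter fun u => m u = v) := by
        rw [Finset.card_eq_sum_ones, Finset.sum_filter, Nat.cast_sum]
        have h3 : ∀ u, g u v = if u ∈ S then (((if m u = v then 1 else 0 : ℕ)) : ℝ) else 0 := by
          intro u
          rw [hg]
          by_cases hu : u ∈ S <;> by_cases hv : m u = v <;> simp [hu, hv]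
        rw [Finset.sum_congr rfl fun u _ => h3 u, Finset.sum_ite_mem, Finset.univ_inter]
      rw [h2]
      exact_mod_cast hc v
    refine ⟨fun u v => (g u v + g v u) / 2, fun u v => ?_, fun u v => ?_, fun u v huv => ?_,
      fun u => ?_, ?_⟩
    · have := hg0 u v
      have := hg0 v u
      positivity
    · change (g u v + g v u) / 2 = (g v u + g u v) / 2
      rw [add_comm]
    · have h2 : g u v = 0 := by
        rw [hg, if_neg]
        rintro ⟨hu, rfl⟩
        exact huv (hm u hu)
      have h3 : g v u = 0 := by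
        rw [hg, if_neg]
        rintro ⟨hu, rfl⟩
        exact huv (hm v hu).symm
      change (g u v + g v u) / 2 = 0
      rw [h2, h3]
      norm_num
    · change ∑ v, (g u v + g v u) / 2 ≤ 1
      rw [← Finset.sum_div, Finset.sum_add_distrib, hgs]
      have := hgt u
      split_ifs <;> linarith
    · change 2 * s ≤ ∑ u, ∑ v, (g u v + g v u) / 2
      have h2 : ∑ u, ∑ v, g u v = #S := by
        rw [Finset.sum_congr rfl fun u _ => hgs u]
        simp
      have h3 : ∑ u, ∑ v, g v u = #S := by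
        rw [Finset.sum_comm]
        exact h2
      have h4 : ∑ u, ∑ v, (g u v + g v u) / 2 = #S := by
        simp only [← Finset.sum_div, Finset.sum_add_distrib]
        rw [h2, h3]
        ring
      rw [h4]
      exact hSs

end Pool.Agent.H17.HX
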