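import Pool.Agent.H17.HX.Base

set_option autoImplicit false

/-! HX-HALL. -/

namespace Pool.Agent.H17.HX

open Finset

/-- HX-HALL: Hall's theorem with deficiency `d` and capacity `t` on the right. -/
theorem hall {V : Type} [Fintype V] [DecidableEq V] (R : V → V → Prop) [DecidableRel R] (t d : ℕ) :
    (∀ D : Finset V, #D ≤ t * #(univ.filter fun v => ∃ u ∈ D, R u v) + d) ↔
      ∃ (S : Finset V) (m : V → V), Fintype.card V ≤ #S + d ∧ (∀ v ∈ S, R v (m v)) ∧
        ∀ u, #(S.filter fun v => m v = u) ≤ t := by
  constructor
  · intro h
    obtain ⟨T, hT⟩ : ∃ T : V → Finset ((V × Fin t) ⊕ Fin d), ∀ v, T v =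
        ((univ.filter (R v)) ×ˢ (univ : Finset (Fin t))).disjSum univ := ⟨_, fun _ => rfl⟩
    have h1 : ∀ s : Finset V, #s ≤ #(s.biUnion T) := by
      intro s
      rcases s.eq_empty_or_nonempty with rfl | ⟨v0, hv0⟩
      · simp
      have h2 : s.biUnion T =
          ((univ.filter fun v => ∃ u ∈ s, R u v) ×ˢ (univ : Finset (Fin t))).disjSum univ := by
        ext x
        rw [Finset.mem_biUnion]
        rcases x with ⟨v, i⟩ | j
        · simp only [hT, Finset.inl_mem_disjSum, Finset.mem_product, Finset.mem_filter,
            Finset.mem_univ, true_and, and_true]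
        · simp only [hT, Finset.inr_mem_disjSum, Finset.mem_univ, and_true, iff_true]
          exact ⟨v0, hv0⟩
      rw [h2, Finset.card_disjSum, Finset.card_product, Finset.card_univ, Finset.card_univ,
        Fintype.card_fin, Fintype.card_fin, mul_comm]
      exact h s
    obtain ⟨f, hf, hfT⟩ := (Finset.all_card_le_biUnion_card_iff_exists_injective T).1 h1
    obtain ⟨m, hm⟩ : ∃ m : V → V, ∀ v, m v = Sum.elim (fun p : V × Fin t => p.1) (fun _ => v) (f v) :=
      ⟨_, fun _ => rfl⟩
    refine ⟨univ.filter fun v => (f v).isLeft, m, ?_, ?_, ?_⟩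
    · have h3 : #(univ.filter fun v => ¬ (f v).isLeft = true) ≤ d := by
        have h4 : #(univ.filter fun v => ¬ (f v).isLeft = true) ≤
            #((∅ : Finset (V × Fin t)).disjSum (univ : Finset (Fin d))) := by
          refine Finset.card_le_card_of_injOn f (fun v hv => ?_) hf.injOn
          rw [Finset.mem_coe, Finset.mem_filter] at hv
          rw [Finset.mem_coe]
          rcases hfv : f v with ⟨w, i⟩ | j
          · rw [hfv] at hv
            simp at hv
          · simp
        rwa [Finset.card_disjSum, Finset.card_empty, zero_add, Finset.card_univ,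
          Fintype.card_fin] at h4
      have h5 := Finset.card_filter_add_card_filter_not (s := (univ : Finset V))
        (fun v => (f v).isLeft = true)
      rw [Finset.card_univ] at h5
      omega
    · intro v hv
      rw [Finset.mem_filter] at hv
      have h6 := hfT v
      rw [hT] at h6
      rcases hfv : f v with ⟨w, i⟩ | j
      · rw [hfv, Finset.inl_mem_disjSum, Finset.mem_product, Finset.mem_filter] at h6
        rw [hm, hfv]
        exact h6.1.2
      · rw [hfv] at hv
        simp at hv
    · intro u
      have h4 : #((univ.filter fun v => (f v).isLeft = true).filter fun v => m v = u) ≤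
          #((({u} : Finset V) ×ˢ (univ : Finset (Fin t))).disjSum (∅ : Finset (Fin d))) := by
        refine Finset.card_le_card_of_injOn f (fun v hv => ?_) hf.injOn
        rw [Finset.mem_coe, Finset.mem_filter, Finset.mem_filter] at hv
        rw [Finset.mem_coe]
        rcases hfv : f v with ⟨w, i⟩ | j
        · have h7 := hv.2
          rw [hm, hfv] at h7
          have h8 : w = u := h7
          simp [h8]
        · rw [hfv] at hv
          simp at hv
      rwa [Finset.card_disjSum, Finset.card_empty, add_zero, Finset.card_product,
        Finset.card_singleton, one_mul, Finset.card_univ, Fintype.card_fin] at h4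
  · rintro ⟨S, m, hS, hR, ht⟩ D
    have h1 : #D ≤ #(D ∩ S) + #(univ \ S) := by
      calc #D ≤ #((D ∩ S) ∪ (univ \ S)) := Finset.card_le_card fun v hv => by
            simp only [Finset.mem_union, Finset.mem_inter, Finset.mem_sdiff, Finset.mem_univ,
              true_and]
            by_cases h : v ∈ S
            · exact Or.inl ⟨hv, h⟩
            · exact Or.inr h
        _ ≤ _ := Finset.card_union_le _ _
    have h2 : #(univ \ S) ≤ d := by
      rw [Finset.card_sdiff_of_subset (Finset.subset_univ _), Finset.card_univ]
      omega
    have h3 : #(D ∩ S) ≤ t * #(univ.filter fun v => ∃ u ∈ D, R u v) := by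
      refine Finset.card_le_mul_card_image_of_maps_to (f := m) (fun v hv => ?_) t fun u _ => ?_
      · rw [Finset.mem_inter] at hv
        rw [Finset.mem_filter]
        exact ⟨Finset.mem_univ _, v, hv.1, hR v hv.2⟩
      · refine (Finset.card_le_card fun v hv => ?_).trans (ht u)
        rw [Finset.mem_filter, Finset.mem_inter] at hv
        rw [Finset.mem_filter]
        exact ⟨hv.1.2, hv.2⟩
    omega

end Pool.Agent.H17.HX
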