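import Pool.Agent.H17.HX.Base

set_option autoImplicit false

/-! HX-IND (helper29) -/

namespace Pool.Agent.H17.HX

open Finset

variable {n : ℕ}

theorem Adm.down {φ : ℕ → ℝ} (hφ : Adm n φ) (i : ℕ) : ∀ k : ℕ, i + k ≤ n → φ (i + k) ≤ φ i + k := by
  intro k
  induction k with
  | zero => intro _; simp
  | succ k ih =>
    intro h
    have h1 := ih (by omega)
    have h2 := hφ.one (i + k) (by omega)
    rw [show i + (k + 1) = i + k + 1 by ring]
    push_cast
    linarith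

theorem sm_indep {φ : ℕ → ℝ} (hφ : Adm n φ) (G : SimpleGraph (Fin n)) (D : Finset (Fin n))
    (hD : SM φ G D) : ∀ u ∈ D, ∀ v ∈ D, ¬ G.Adj u v := by
  classical
  have h1 : nb G (D \ nb G D) ⊆ nb G D \ (D ∩ nb G D) := by
    intro v hv
    obtain ⟨u, hu, huv⟩ := mem_nb.1 hv
    rw [Finset.mem_sdiff] at hu
    rw [Finset.mem_sdiff, Finset.mem_inter]
    refine ⟨mem_nb.2 ⟨u, hu.1, huv⟩, fun h => hu.2 ?_⟩
    exact mem_nb.2 ⟨v, h.1, huv.symm⟩
  have h2 := Finset.card_le_card h1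
  have h3 : #(nb G D \ (D ∩ nb G D)) + #(D ∩ nb G D) = #(nb G D) :=
    Finset.card_sdiff_add_card_eq_card Finset.inter_subset_right
  have h4 : #(D \ nb G D) + #(D ∩ nb G D) = #D := Finset.card_sdiff_add_card_inter D (nb G D)
  have h5 : #D ≤ n := by
    have := Finset.card_le_univ D
    rwa [Fintype.card_fin] at this
  have h6 := hφ.down #(D \ nb G D) #(D ∩ nb G D) (by omega)
  rw [h4] at h6
  have h7 : (#(nb G (D \ nb G D)) : ℝ) + #(D ∩ nb G D) ≤ #(nb G D) := by
    have : #(nb G (D \ nb G D)) + #(D ∩ nb G D) ≤ #(nb G D) := by omega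
    exact_mod_cast this
  have h8 : F φ G D ≤ F φ G (D \ nb G D) := by
    unfold F
    linarith
  have h9 := (hD (D \ nb G D)).2 h8
  intro u hu v hv huv
  exact (Finset.mem_sdiff.1 (h9 hu)).2 (mem_nb.2 ⟨v, hv, huv.symm⟩)

end Pool.Agent.H17.HX
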