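import Pool.Agent.H17.HX.Base

set_option autoImplicit false

/-! HX-ISO. -/

namespace Pool.Agent.H17.HX

open Finset

variable {n : ℕ}

theorem Adm.lt_of_lt {φ : ℕ → ℝ} (hφ : Adm n φ) {i j : ℕ} (hij : i < j) (hj : j ≤ n) :
    φ i < φ j := by
  induction j with
  | zero => omega
  | succ j ih =>
    have h1 := hφ.inc j (by omega)
    rcases Nat.lt_or_ge i j with h | h
    · exact (ih h (by omega)).trans h1
    · have h2 : i = j := by omega
      rw [h2]
      exact h1

/-- HX-ISO (15 lines). Isolated vertices belong to the smallest maximiser, as `φ` is increasing. -/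
theorem sm_isolated {φ : ℕ → ℝ} (hφ : Adm n φ) (G : SimpleGraph (Fin n)) (D : Finset (Fin n))
    (hD : SM φ G D) (Z : Finset (Fin n)) (hZ : nb G Z = ∅) : Z ⊆ D := by
  classical
  by_contra hcon
  have h1 : #D < #(D ∪ Z) := by
    apply Finset.card_lt_card
    rw [Finset.ssubset_iff_subset_ne]
    refine ⟨Finset.subset_union_left, fun h => hcon ?_⟩
    rw [h]
    exact Finset.subset_union_right
  have h2 : #(D ∪ Z) ≤ n := by
    have := Finset.card_le_univ (D ∪ Z)
    rwa [Fintype.card_fin] at this
  have h3 := hφ.lt_of_lt h1 h2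
  have h4 := (hD (D ∪ Z)).1
  unfold F at h4
  rw [nb_union, hZ, Finset.union_empty] at h4
  linarith

end Pool.Agent.H17.HX
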