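import Pool.Agent.H17.HX.Base

set_option autoImplicit false

/-! HX-NORM (helper29) -/

namespace Pool.Agent.H17.HX

open Finset

theorem norm (n : ℕ) (hn : 2 ≤ n) (φ : ℕ → ℝ) (h1 : ∀ j, j < n → φ (j + 1) ≤ φ j + 1)
    (h2 : ∀ j, j + 2 ≤ n → φ (j + 1) - φ j ≤ φ (j + 2) - φ (j + 1)) (h0 : φ 0 ≤ 0) (h3 : 0 < φ n) :
    ∃ (φ' : ℕ → ℝ) (d : ℕ), Adm n φ' ∧ d < n ∧ (∀ j, j ≤ n → (φ' j ≤ 0 ↔ j ≤ d)) ∧
      ∀ j, j ≤ n → ∀ k : ℕ, φ j ≤ k ↔ φ' j ≤ k := by
  classical
  have hex : ∃ i, 0 < φ i := ⟨n, h3⟩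
  obtain ⟨i, hi, hmin⟩ : ∃ i, 0 < φ i ∧ ∀ j, j < i → φ j ≤ 0 :=
    ⟨Nat.find hex, Nat.find_spec hex, fun j hj => not_lt.1 (Nat.find_min hex hj)⟩
  have hi0 : i ≠ 0 := by
    rintro rfl
    linarith
  obtain ⟨d, rfl⟩ : ∃ d, i = d + 1 := ⟨i - 1, by omega⟩
  have hdn : d < n := by
    by_contra hcon
    have := hmin n (by omega)
    linarith
  have hd : φ d ≤ 0 := hmin d (by omega)
  set ε := φ (d + 1) - φ d with hε
  have hε0 : 0 < ε := by rw [hε]; linarith
  have hε1 : ε ≤ 1 := by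
    have := h1 d hdn
    rw [hε]; linarith
  have hinc : ∀ m, d + m + 1 ≤ n → ε ≤ φ (d + m + 1) - φ (d + m) := by
    intro m
    induction m with
    | zero => intro _; exact le_rfl
    | succ m ih =>
      intro h
      have a1 := ih (by omega)
      have a2 := h2 (d + m) (by omega)
      rw [show d + (m + 1) + 1 = d + m + 2 by ring, show d + (m + 1) = d + m + 1 by ring]
      linarith
  have hpos : ∀ m, d + m + 1 ≤ n → 0 < φ (d + m + 1) := by
    intro m
    induction m with
    | zero => intro _; exact hi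
    | succ m ih =>
      intro h
      have a1 := ih (by omega)
      have a2 := hinc (m + 1) h
      rw [show d + (m + 1) = d + m + 1 by ring] at a2 ⊢
      linarith
  let ψ : ℕ → ℝ := fun j => if j ≤ d then φ d - ε * ((d : ℝ) - j) else φ j
  have e1 : ∀ j, j ≤ d → ψ j = φ d - ε * ((d : ℝ) - j) := fun j hj => if_pos hj
  have e2 : ∀ j, d ≤ j → ψ j = φ j := by
    intro j hj
    rcases hj.eq_or_lt with rfl | h
    · rw [e1 d le_rfl]; ring
    · exact if_neg (by omega)
  -- increments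
  have f1 : ∀ j, j < d → ψ (j + 1) - ψ j = ε := by
    intro j hj
    rw [e1 j hj.le, e1 (j + 1) hj]
    push_cast
    ring
  have f2 : ∀ j, d ≤ j → ψ (j + 1) - ψ j = φ (j + 1) - φ j := by
    intro j hj
    rw [e2 j hj, e2 (j + 1) (by omega)]
  have f3 : ∀ j, j < n → ε ≤ ψ (j + 1) - ψ j := by
    intro j hj
    rcases lt_or_ge j d with h | h
    · rw [f1 j h]
    · rw [f2 j h]
      obtain ⟨m, rfl⟩ := Nat.exists_eq_add_of_le h
      exact hinc m (by omega)
  refine ⟨ψ, d, ⟨fun j hj => ?_, fun j hj => ?_, fun j hj => ?_⟩, hdn, fun j hj => ?_,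
    fun j hj k => ?_⟩
  · have := f3 j hj
    linarith
  · rcases lt_or_ge j d with h | h
    · have := f1 j h
      linarith
    · have := f2 j h
      have := h1 j hj
      linarith
  · rcases lt_or_ge j d with h | h
    · rw [f1 j h]
      exact f3 (j + 1) (by omega)
    · have a1 := f2 (j + 1) (by omega)
      rw [f2 j h]
      rw [show j + 1 + 1 = j + 2 by ring] at a1
      rw [a1]
      exact h2 j hj
  · constructor
    · intro h
      by_contra hcon
      push Not at hcon
      obtain ⟨m, hm⟩ := Nat.exists_eq_add_of_lt hcon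
      have := hpos m (by omega)
      rw [← hm, ← e2 j (by omega)] at this
      linarith
    · intro h
      rw [e1 j h]
      have : (j : ℝ) ≤ d := by exact_mod_cast h
      have : 0 ≤ ε * ((d : ℝ) - j) := mul_nonneg hε0.le (by linarith)
      linarith
  · rcases le_or_gt j d with h | h
    · have hk : (0 : ℝ) ≤ k := Nat.cast_nonneg k
      have a1 : φ j ≤ 0 := hmin j (by omega)
      have a2 : ψ j ≤ 0 := by
        rw [e1 j h]
        have : (j : ℝ) ≤ d := by exact_mod_cast h
        have : 0 ≤ ε * ((d : ℝ) - j) := mul_nonneg hε0.le (by linarith)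
        linarith
      constructor <;> intro _ <;> linarith
    · rw [e2 j h.le]

end Pool.Agent.H17.HX
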