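import Pool.Agent.H17.HX.Base

set_option autoImplicit false

/-! HX-NZ1 (helper29) -/

namespace Pool.Agent.H17.HX

open Finset

/-- the alternating partial sums -/
theorem alt_sum (m : ℕ) : ∀ d : ℕ, ∑ c ∈ range (d + 1), (-1 : ℤ) ^ c * ((m + 1).choose c : ℤ) =
    (-1) ^ d * (m.choose d : ℤ) := by
  intro d
  induction d with
  | zero => simp
  | succ d ih =>
    rw [Finset.sum_range_succ, ih, Nat.choose_succ_succ]
    push_cast
    ring

theorem nz_one (n t d : ℕ) (hd : d < n) (h : t + 2 + d ≤ n) :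
    ∑ c ∈ range (d + 1), (n.choose c : ℤ) * w t (n - c) ≠ 0 := by
  obtain ⟨m, rfl⟩ : ∃ m, n = m + 1 := ⟨n - 1, by omega⟩
  have e : ∑ c ∈ range (d + 1), ((m + 1).choose c : ℤ) * w t (m + 1 - c) =
      (-1 : ℤ) ^ (m + 1) * ∑ c ∈ range (d + 1), (-1 : ℤ) ^ c * ((m + 1).choose c : ℤ) := by
    rw [Finset.mul_sum]
    refine Finset.sum_congr rfl fun c hc => ?_
    rw [Finset.mem_range] at hc
    have h1 : w t (m + 1 - c) = (-1 : ℤ) ^ (m + 1 - c) := by
      unfold w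
      rw [if_neg (by omega)]
    have h2 : (-1 : ℤ) ^ (m + 1) * (-1 : ℤ) ^ c = (-1 : ℤ) ^ (m + 1 - c) := by
      have h3 : m + 1 = (m + 1 - c) + c := by omega
      have h4 : (-1 : ℤ) ^ c * (-1 : ℤ) ^ c = 1 := by
        rw [← mul_pow]; simp
      calc (-1 : ℤ) ^ (m + 1) * (-1 : ℤ) ^ c = (-1 : ℤ) ^ ((m + 1 - c) + c) * (-1 : ℤ) ^ c := by
            rw [← h3]
        _ = (-1 : ℤ) ^ (m + 1 - c) * ((-1 : ℤ) ^ c * (-1 : ℤ) ^ c) := by rw [pow_add]; ring
        _ = (-1 : ℤ) ^ (m + 1 - c) := by rw [h4, mul_one]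
    rw [h1, ← h2]
    ring
  rw [e, alt_sum]
  have h5 : (m.choose d : ℤ) ≠ 0 := by
    have := Nat.choose_pos (n := m) (k := d) (by omega)
    exact_mod_cast this.ne'
  exact mul_ne_zero (pow_ne_zero _ (by norm_num)) (mul_ne_zero (pow_ne_zero _ (by norm_num)) h5)

end Pool.Agent.H17.HX
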