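import Pool.Agent.H17.HX.Base

set_option autoImplicit false

/-! HX-NZ2 (helper29) -/

namespace Pool.Agent.H17.HX

open Finset

theorem part_sum (m : ℕ) : ∀ J : ℕ,
    ∑ j ∈ range (J + 2), ((m + 2).choose j : ℤ) * ((-1 : ℤ) ^ j * ((j : ℤ) - 1)) =
      (-1) ^ (J + 1) * (((m : ℤ) + 2) * (m.choose J : ℤ) - ((m + 1).choose (J + 1) : ℤ)) := by
  intro J
  induction J with
  | zero =>
    simp [Finset.sum_range_succ]
  | succ J ih =>
    rw [show J + 1 + 2 = (J + 2) + 1 by ring, Finset.sum_range_succ, ih]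
    have h1 : ((m + 2) * (m + 1).choose (J + 1) : ℤ) =
        (m + 2).choose (J + 2) * ((J : ℤ) + 2) := by
      have := Nat.add_one_mul_choose_eq (m + 1) (J + 1)
      have h2 : ((m + 1 + 1) * (m + 1).choose (J + 1) : ℕ) =
        ((m + 1 + 1).choose (J + 1 + 1) * (J + 1 + 1) : ℕ) := this
      have h3 : (((m + 1 + 1) * (m + 1).choose (J + 1) : ℕ) : ℤ) =
        (((m + 1 + 1).choose (J + 1 + 1) * (J + 1 + 1) : ℕ) : ℤ) := by rw [h2]
      push_cast at h3
      rw [show (m : ℤ) + 1 + 1 = m + 2 by ring, show (J : ℤ) + 1 + 1 = J + 2 by ring] at h3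
      exact h3
    have h4 : ((m + 1).choose (J + 1) : ℤ) = m.choose J + m.choose (J + 1) := by
      rw [Nat.choose_succ_succ]; push_cast; rfl
    have h5 : ((m + 2).choose (J + 2) : ℤ) = (m + 1).choose (J + 1) + (m + 1).choose (J + 2) := by
      rw [Nat.choose_succ_succ]; push_cast; rfl
    rw [show J + 1 + 1 = J + 2 by ring]
    have h6 : (((J + 2 : ℕ) : ℤ)) = (J : ℤ) + 2 := by push_cast; ring
    rw [h6]
    have h7 : ((-1 : ℤ)) ^ (J + 2) = -(-1) ^ (J + 1) := by ring
    rw [h7]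
    linear_combination ((-1 : ℤ) ^ (J + 1)) * (h1 + ((m : ℤ) + 2) * (-h4) + h5)

theorem nz_two (n t d : ℕ) (hn : 2 ≤ n) (ht : 1 ≤ t) (hd : d < n) (h : n ≤ t + 2 + d)
    (hb : ∑ j ∈ range (n + 1), (n.choose j : ℤ) * w t j + (n : ℤ) * sg t (n - 1) =
      if n ≤ 1 then 1 else 0) :
    ∑ c ∈ range (d + 1), (n.choose c : ℤ) * w t (n - c) + (n : ℤ) * sg t (n - 1) ≠ 0 := by
  rw [if_neg (by omega)] at hb
  have e1 : ∑ c ∈ range (d + 1), (n.choose c : ℤ) * w t (n - c) =
      ∑ j ∈ (range (n + 1)).filter (fun j => n - d ≤ j), (n.choose j : ℤ) * w t j := by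
    refine Finset.sum_bij (fun c _ => n - c) ?_ ?_ ?_ ?_
    · intro c hc
      rw [Finset.mem_range] at hc
      rw [Finset.mem_filter, Finset.mem_range]
      omega
    · intro a ha b hb hab
      rw [Finset.mem_range] at ha hb
      omega
    · intro j hj
      rw [Finset.mem_filter, Finset.mem_range] at hj
      refine ⟨n - j, ?_, ?_⟩
      · rw [Finset.mem_range]; omega
      · show n - (n - j) = j
        omega
    · intro c hc
      rw [Finset.mem_range] at hc
      rw [Nat.choose_symm (by omega)]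
  have e2 := Finset.sum_filter_add_sum_filter_not (range (n + 1)) (fun j => n - d ≤ j)
    (fun j => (n.choose j : ℤ) * w t j)
  have e3 : (range (n + 1)).filter (fun j => ¬ n - d ≤ j) = range (n - d) := by
    ext j
    rw [Finset.mem_filter, Finset.mem_range, Finset.mem_range]
    omega
  rw [e3] at e2
  have e4 : ∑ j ∈ range (n - d), (n.choose j : ℤ) * w t j =
      -∑ j ∈ range (n - d), (n.choose j : ℤ) * ((-1 : ℤ) ^ j * ((j : ℤ) - 1)) := by
    rw [← Finset.sum_neg_distrib]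
    refine Finset.sum_congr rfl fun j hj => ?_
    rw [Finset.mem_range] at hj
    unfold w
    rw [if_pos (by omega)]
    ring
  have key : ∑ c ∈ range (d + 1), (n.choose c : ℤ) * w t (n - c) + (n : ℤ) * sg t (n - 1) =
      ∑ j ∈ range (n - d), (n.choose j : ℤ) * ((-1 : ℤ) ^ j * ((j : ℤ) - 1)) := by
    rw [e1]
    linarith
  rw [key]
  obtain ⟨m, rfl⟩ : ∃ m, n = m + 2 := ⟨n - 2, by omega⟩
  rcases Nat.lt_or_ge (m + 2 - d) 2 with h1 | h1
  · have h2 : m + 2 - d = 1 := by omega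
    rw [h2]
    simp
  · obtain ⟨J, hJ⟩ : ∃ J, m + 2 - d = J + 2 := ⟨m + 2 - d - 2, by omega⟩
    rw [hJ, part_sum]
    have h3 : ((J : ℤ) + 1) * ((m + 1).choose (J + 1) : ℤ) = ((m : ℤ) + 1) * (m.choose J : ℤ) := by
      have := Nat.add_one_mul_choose_eq m J
      have h2 : ((m + 1) * m.choose J : ℕ) = ((m + 1).choose (J + 1) * (J + 1) : ℕ) := this
      have h3 : (((m + 1) * m.choose J : ℕ) : ℤ) = (((m + 1).choose (J + 1) * (J + 1) : ℕ) : ℤ) := by
        rw [h2]
      push_cast at h3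
      linarith
    have h4 : 0 < (m.choose J : ℤ) := by
      have := Nat.choose_pos (n := m) (k := J) (by omega)
      exact_mod_cast this
    refine mul_ne_zero (pow_ne_zero _ (by norm_num)) fun h5 => ?_
    have h6 : ((J : ℤ) + 1) * (((m : ℤ) + 2) * (m.choose J : ℤ)) =
        ((m : ℤ) + 1) * (m.choose J : ℤ) := by
      rw [← h3]
      linear_combination ((J : ℤ) + 1) * h5
    have h7 : ((J : ℤ) + 1) * ((m : ℤ) + 2) = (m : ℤ) + 1 := by
      have : (((J : ℤ) + 1) * ((m : ℤ) + 2)) * (m.choose J : ℤ) = ((m : ℤ) + 1) * (m.choose J : ℤ) := by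
        linarith
      exact mul_right_cancel₀ h4.ne' this
    have h8 : (0 : ℤ) ≤ J := Int.natCast_nonneg J
    have h9 : (0 : ℤ) ≤ m := Int.natCast_nonneg m
    nlinarith

end Pool.Agent.H17.HX
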