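import Pool.Agent.H17.HX.Base

set_option autoImplicit false

namespace Pool.Agent.H17.HX

open Finset

variable {n : ℕ}

theorem sm_exists {φ : ℕ → ℝ} (G : SimpleGraph (Fin n))
    (hs : ∀ X Y, F φ G X + F φ G Y ≤ F φ G (X ∩ Y) + F φ G (X ∪ Y)) :
    ∃! D, SM φ G D := by
  classical
  obtain ⟨M, -, hM⟩ := Finset.exists_max_image (univ : Finset (Finset (Fin n))) (F φ G) ⟨∅, mem_univ _⟩
  have hM' : ∀ X, F φ G X ≤ F φ G M := fun X => hM X (mem_univ X)
  obtain ⟨D, hD, hDm⟩ := Finset.exists_min_image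
    ((univ : Finset (Finset (Fin n))).filter fun X => F φ G M ≤ F φ G X) (fun X => #X)
    ⟨M, by simp⟩
  rw [mem_filter] at hD
  have hD' : F φ G D = F φ G M := le_antisymm (hM' D) hD.2
  have hSM : SM φ G D := by
    intro X
    refine ⟨by rw [hD']; exact hM' X, fun hX => ?_⟩
    have h1 := hs D X
    have h2 := hM' (D ∪ X)
    have h3 : F φ G M ≤ F φ G (D ∩ X) := by linarith
    have h4 := hDm (D ∩ X) (by rw [mem_filter]; exact ⟨mem_univ _, h3⟩)
    have h5 : D ∩ X = D := Finset.eq_of_subset_of_card_le inter_subset_left h4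
    rw [← h5]
    exact inter_subset_right
  refine ⟨D, hSM, fun E hE => ?_⟩
  exact ((hE D).2 (hSM E).1).antisymm ((hSM E).2 (hE D).1)

end Pool.Agent.H17.HX
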