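import Pool.Agent.H17.HX.Base

set_option autoImplicit false

/-! # HX-SSUM: the signed number of the stars (helper71) -/

namespace Pool.Agent.H17.HX

open Finset

variable {n : ℕ}

open Classical in
/-- the star with centre `a` and leaves `L` -/
noncomputable def starG (a : Fin n) (L : Finset (Fin n)) : SimpleGraph (Fin n) :=
  gr (L.image fun v => s(a, v))

theorem starG_adj (a : Fin n) (L : Finset (Fin n)) (x y : Fin n) :
    (starG a L).Adj x y ↔ x ≠ y ∧ ((x = a ∧ y ∈ L) ∨ (y = a ∧ x ∈ L)) := by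
  classical
  unfold starG gr
  rw [SimpleGraph.fromEdgeSet_adj]
  simp only [Finset.coe_image, Set.mem_image, Finset.mem_coe]
  constructor
  · rintro ⟨⟨v, hv, h⟩, hne⟩
    refine ⟨hne, ?_⟩
    rw [Sym2.eq_iff] at h
    rcases h with ⟨h1, h2⟩ | ⟨h1, h2⟩
    · left
      exact ⟨h1.symm, h2 ▸ hv⟩
    · right
      exact ⟨h1.symm, h2 ▸ hv⟩
  · rintro ⟨hne, ⟨h1, h2⟩ | ⟨h1, h2⟩⟩
    · exact ⟨⟨y, h2, by rw [h1]⟩, hne⟩
    · exact ⟨⟨x, h2, by rw [h1, Sym2.eq_swap]⟩, hne⟩

theorem starG_nb (a : Fin n) (L : Finset (Fin n)) (ha : a ∉ L) : nb (starG a L) {a} = L := by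
  ext v
  rw [mem_nb]
  simp only [Finset.mem_singleton, exists_eq_left]
  rw [starG_adj]
  constructor
  · rintro ⟨hne, ⟨-, h⟩ | ⟨h, -⟩⟩
    · exact h
    · exact absurd h.symm hne
  · intro h
    have : a ≠ v := fun h' => ha (h' ▸ h)
    exact ⟨this, Or.inl ⟨rfl, h⟩⟩

theorem starG_card (a : Fin n) (L : Finset (Fin n)) (ha : a ∉ L) : #(ed (starG a L)) = #L := by
  classical
  have h1 : ed (starG a L) = L.image fun v => s(a, v) := by
    ext e
    rw [mem_ed]
    induction e using Sym2.ind with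
    | _ x y =>
      rw [SimpleGraph.mem_edgeSet, starG_adj, Finset.mem_image]
      constructor
      · rintro ⟨hne, ⟨h1, h2⟩ | ⟨h1, h2⟩⟩
        · exact ⟨y, h2, by rw [h1]⟩
        · exact ⟨x, h2, by rw [h1, Sym2.eq_swap]⟩
      · rintro ⟨v, hv, h⟩
        have hva : a ≠ v := fun h' => ha (h' ▸ hv)
        rw [Sym2.eq_iff] at h
        rcases h with ⟨h1, h2⟩ | ⟨h1, h2⟩
        · subst h1
          subst h2
          exact ⟨hva, Or.inl ⟨rfl, hv⟩⟩
        · subst h1
          subst h2
          exact ⟨hva.symm, Or.inr ⟨rfl, hv⟩⟩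
  rw [h1]
  apply Finset.card_image_of_injective
  intro v w hvw
  have h2 : s(a, v) = s(a, w) := hvw
  exact Sym2.congr_right.1 h2

/-- HX-SSUM. The signed number of the stars with centre `a`, more than `t` leaves and no leaf
in `Z`. -/
theorem star_sum (t : ℕ) (a : Fin n) (Z : Finset (Fin n)) (ha : a ∉ Z) :
    SS (fun G : SimpleGraph (Fin n) => ((∀ x y, G.Adj x y → x = a ∨ y = a) ∧ t < #(nb G {a})) ∧
      nb G Z = ∅) = sg t (n - 1 - #Z) := by
  classical
  suffices key : ∀ Q : SimpleGraph (Fin n) → Prop, (∀ G, Q G ↔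
      ((∀ x y, G.Adj x y → x = a ∨ y = a) ∧ t < #(nb G {a})) ∧ nb G Z = ∅) →
      SS Q = sg t (n - 1 - #Z) from key _ fun G => Iff.rfl
  intro Q hQ
  have hZs : Z ⊆ univ.erase a := fun v hv => by
    rw [Finset.mem_erase]
    exact ⟨fun h => ha (h ▸ hv), Finset.mem_univ v⟩
  have hcard : #((univ : Finset (Fin n)).erase a \ Z) = n - 1 - #Z := by
    rw [Finset.card_sdiff_of_subset hZs, Finset.card_erase_of_mem (Finset.mem_univ a),
      Finset.card_univ, Fintype.card_fin]
  have h1 : sg t (n - 1 - #Z) = ∑ L ∈ (univ.erase a \ Z).powerset,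
      if t < #L then (-1 : ℤ) ^ #L else 0 := by
    rw [Finset.sum_powerset_apply_card (fun j => if t < j then (-1 : ℤ) ^ j else 0), hcard]
    unfold sg
    refine Finset.sum_congr rfl fun j _ => ?_
    split_ifs with h
    · rw [nsmul_eq_mul]
      ring
    · simp
  rw [h1, ← Finset.sum_filter]
  unfold SS
  refine Finset.sum_nbij' (fun G => nb G {a}) (fun L => starG a L) ?_ ?_ ?_ ?_ ?_
  · intro G hG
    rw [Finset.mem_filter, hQ] at hG
    obtain ⟨-, ⟨hst, htl⟩, hZ⟩ := hG
    rw [Finset.mem_filter, Finset.mem_powerset]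
    refine ⟨fun v hv => ?_, htl⟩
    rw [mem_nb] at hv
    simp only [Finset.mem_singleton, exists_eq_left] at hv
    rw [Finset.mem_sdiff, Finset.mem_erase]
    refine ⟨⟨hv.ne', Finset.mem_univ v⟩, fun hvZ => ?_⟩
    have : a ∈ nb G Z := by
      rw [mem_nb]
      exact ⟨v, hvZ, hv.symm⟩
    rw [hZ] at this
    exact absurd this (Finset.notMem_empty a)
  · intro L hL
    rw [Finset.mem_filter, Finset.mem_powerset] at hL
    obtain ⟨hLs, htL⟩ := hL
    have haL : a ∉ L := fun h => by
      have := hLs h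
      simp at this
    rw [Finset.mem_filter, hQ]
    refine ⟨Finset.mem_univ _, ⟨fun x y hxy => ?_, ?_⟩, ?_⟩
    · rw [starG_adj] at hxy
      rcases hxy.2 with h | h
      · exact Or.inl h.1
      · exact Or.inr h.1
    · rw [starG_nb a L haL]
      exact htL
    · rw [Finset.eq_empty_iff_forall_notMem]
      intro v hv
      rw [mem_nb] at hv
      obtain ⟨u, huZ, huv⟩ := hv
      rw [starG_adj] at huv
      rcases huv.2 with ⟨h, -⟩ | ⟨-, h⟩
      · exact ha (h ▸ huZ)
      · have := hLs h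
        rw [Finset.mem_sdiff] at this
        exact this.2 huZ
  · intro G hG
    rw [Finset.mem_filter, hQ] at hG
    obtain ⟨-, ⟨hst, htl⟩, hZ⟩ := hG
    ext x y
    rw [starG_adj]
    have hm : ∀ v, v ∈ nb G {a} ↔ G.Adj a v := by
      intro v
      rw [mem_nb]
      simp
    constructor
    · rintro ⟨hne, ⟨h1, h2⟩ | ⟨h1, h2⟩⟩
      · rw [hm] at h2
        rw [h1]
        exact h2
      · rw [hm] at h2
        rw [h1]
        exact h2.symm
    · intro h
      refine ⟨h.ne, ?_⟩
      rcases hst x y h with h1 | h1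
      · left
        refine ⟨h1, ?_⟩
        rw [hm, ← h1]
        exact h
      · right
        refine ⟨h1, ?_⟩
        rw [hm, ← h1]
        exact h.symm
  · intro L hL
    rw [Finset.mem_filter, Finset.mem_powerset] at hL
    have haL : a ∉ L := fun h => by
      have := hL.1 h
      simp at this
    exact starG_nb a L haL
  · intro G hG
    rw [Finset.mem_filter, hQ] at hG
    obtain ⟨-, ⟨hst, htl⟩, hZ⟩ := hG
    have hm : ∀ v, v ∈ nb G {a} ↔ G.Adj a v := by
      intro v
      rw [mem_nb]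
      simp
    have haL : a ∉ nb G {a} := by
      rw [hm]
      exact G.loopless.irrefl a
    have hG : starG a (nb G {a}) = G := by
      ext x y
      rw [starG_adj]
      constructor
      · rintro ⟨hne, ⟨h1, h2⟩ | ⟨h1, h2⟩⟩
        · rw [hm] at h2
          rw [h1]
          exact h2
        · rw [hm] at h2
          rw [h1]
          exact h2.symm
      · intro h
        refine ⟨h.ne, ?_⟩
        rcases hst x y h with h1 | h1
        · left
          refine ⟨h1, ?_⟩
          rw [hm, ← h1]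
          exact h
        · right
          refine ⟨h1, ?_⟩
          rw [hm, ← h1]
          exact h.symm
    have h2 := starG_card a (nb G {a}) haL
    rw [hG] at h2
    rw [h2]

end Pool.Agent.H17.HX
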