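import Pool.Agent.H17.HX.Base

set_option autoImplicit false

/-! # HX-STAR: stars (helper71) -/

namespace Pool.Agent.H17.HX

open Finset

variable {n : ℕ}

theorem star_mono {φ : ℕ → ℝ} (hφ : Adm n φ) {i j : ℕ} (hij : i ≤ j) (hj : j ≤ n) : φ i ≤ φ j := by
  induction j with
  | zero =>
    have : i = 0 := by omega
    rw [this]
  | succ j ih =>
    rcases Nat.lt_or_ge i (j + 1) with h | h
    · exact (ih (by omega) (by omega)).trans (hφ.inc j (by omega)).le
    · have : i = j + 1 := by omega
      rw [this]

theorem star_strict {φ : ℕ → ℝ} (hφ : Adm n φ) {i j : ℕ} (hij : i < j) (hj : j ≤ n) :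
    φ i < φ j := by
  obtain ⟨k, rfl⟩ : ∃ k, j = k + 1 := ⟨j - 1, by omega⟩
  exact (star_mono hφ (by omega : i ≤ k) (by omega)).trans_lt (hφ.inc k (by omega))

/-- HX-STAR. Graphs with smallest maximiser `V \ a` and `nb = {a}`: the stars with centre `a`
and more than `t` leaves. -/
theorem star_iff {φ : ℕ → ℝ} (hφ : Adm n φ) {t : ℕ} (ht : IsT n φ t) (G : SimpleGraph (Fin n))
    (a : Fin n) :
    (SM φ G (univ.erase a) ∧ nb G (univ.erase a) = {a}) ↔
      (∀ x y, G.Adj x y → x = a ∨ y = a) ∧ t < #(nb G {a}) := by
  classical
  have hn : 1 ≤ n := by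
    have := a.2
    omega
  have hmemL : ∀ v, v ∈ nb G {a} ↔ G.Adj a v := by
    intro v
    rw [mem_nb]
    simp
  have hLa : a ∉ nb G {a} := by
    rw [hmemL]
    exact G.loopless.irrefl a
  have hcE : #((univ : Finset (Fin n)).erase a) = n - 1 := by
    rw [Finset.card_erase_of_mem (Finset.mem_univ a), Finset.card_univ, Fintype.card_fin]
  have hLs : nb G {a} ⊆ univ.erase a := fun v hv => by
    rw [Finset.mem_erase]
    exact ⟨fun h => hLa (h ▸ hv), Finset.mem_univ v⟩
  have hLn : #(nb G {a}) ≤ n - 1 := by
    rw [← hcE]
    exact Finset.card_le_card hLs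
  constructor
  · rintro ⟨hSM, hnb⟩
    have hstar : ∀ x y, G.Adj x y → x = a ∨ y = a := by
      intro x y hxy
      by_cases hx : x = a
      · exact Or.inl hx
      · right
        have : y ∈ nb G (univ.erase a) := by
          rw [mem_nb]
          exact ⟨x, Finset.mem_erase.2 ⟨hx, Finset.mem_univ x⟩, hxy⟩
        rw [hnb] at this
        exact Finset.mem_singleton.1 this
    refine ⟨hstar, ?_⟩
    obtain ⟨hX1, hX2⟩ := hSM (univ.erase a \ nb G {a})
    have hnbX : nb G (univ.erase a \ nb G {a}) = ∅ := by
      rw [Finset.eq_empty_iff_forall_notMem]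
      intro v hv
      rw [mem_nb] at hv
      obtain ⟨u, hu, huv⟩ := hv
      rw [Finset.mem_sdiff, Finset.mem_erase] at hu
      rcases hstar u v huv with h | h
      · exact hu.1.1 h
      · subst h
        exact hu.2 ((hmemL u).2 huv.symm)
    have hcX : #(univ.erase a \ nb G {a}) = n - 1 - #(nb G {a}) := by
      rw [Finset.card_sdiff_of_subset hLs, hcE]
    have hFX : F φ G (univ.erase a \ nb G {a}) = φ (n - 1 - #(nb G {a})) := by
      unfold F
      rw [hnbX, hcX]
      simp
    have hFE : F φ G (univ.erase a) = φ (n - 1) - 1 := by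
      unfold F
      rw [hnb, hcE]
      simp
    have hnot : ¬ (univ.erase a ⊆ univ.erase a \ nb G {a}) := by
      intro h
      have ha : a ∈ nb G (univ.erase a) := by
        rw [hnb]
        exact Finset.mem_singleton_self a
      rw [mem_nb] at ha
      obtain ⟨u, hu, hua⟩ := ha
      have h1 := h hu
      rw [Finset.mem_sdiff] at h1
      exact h1.2 ((hmemL u).2 hua.symm)
    have h3 : F φ G (univ.erase a \ nb G {a}) < F φ G (univ.erase a) := by
      by_contra hcon
      push Not at hcon
      exact hnot (hX2 hcon)
    rw [hFX, hFE] at h3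
    exact (ht.2 _ (by omega)).1 h3
  · rintro ⟨hstar, htL⟩
    have ht1 := ht.1
    have hLne : (nb G {a}).Nonempty := by
      rw [← Finset.card_pos]
      omega
    obtain ⟨l₀, hl₀⟩ := hLne
    rw [hmemL] at hl₀
    have hnb : nb G (univ.erase a) = {a} := by
      ext v
      rw [mem_nb, Finset.mem_singleton]
      constructor
      · rintro ⟨u, hu, huv⟩
        rw [Finset.mem_erase] at hu
        rcases hstar u v huv with h | h
        · exact absurd h hu.1
        · exact h
      · rintro rfl
        exact ⟨l₀, Finset.mem_erase.2 ⟨hl₀.ne', Finset.mem_univ _⟩, hl₀.symm⟩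
    have hFE : F φ G (univ.erase a) = φ (n - 1) - 1 := by
      unfold F
      rw [hnb, hcE]
      simp
    refine ⟨fun X => ?_, hnb⟩
    rw [hFE]
    by_cases haX : a ∈ X
    · -- `F X ≤ φ (n - 1) - ℓ`
      have hL2 : (2 : ℝ) ≤ #(nb G {a}) := by
        have : 2 ≤ #(nb G {a}) := by omega
        exact_mod_cast this
      have hLX : nb G {a} ⊆ nb G X := nb_mono (by simpa using haX)
      have hFX : F φ G X ≤ φ (n - 1) - #(nb G {a}) := by
        by_cases hXL : X ∩ nb G {a} = ∅
        · have h1 : X ⊆ univ \ nb G {a} := by
            intro v hv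
            rw [Finset.mem_sdiff]
            refine ⟨Finset.mem_univ v, fun h => ?_⟩
            have : v ∈ X ∩ nb G {a} := Finset.mem_inter.2 ⟨hv, h⟩
            rw [hXL] at this
            exact absurd this (Finset.notMem_empty v)
          have h2 : #X ≤ n - 1 := by
            have := Finset.card_le_card h1
            rw [Finset.card_sdiff_of_subset (Finset.subset_univ _), Finset.card_univ,
              Fintype.card_fin] at this
            omega
          have h3 := star_mono hφ h2 (by omega : n - 1 ≤ n)
          have h4 : (#(nb G {a}) : ℝ) ≤ #(nb G X) := by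
            exact_mod_cast Finset.card_le_card hLX
          unfold F
          linarith
        · have haN : a ∈ nb G X := by
            obtain ⟨v, hv⟩ := Finset.nonempty_iff_ne_empty.2 hXL
            rw [Finset.mem_inter, hmemL] at hv
            rw [mem_nb]
            exact ⟨v, hv.1, hv.2.symm⟩
          have h1 : insert a (nb G {a}) ⊆ nb G X := Finset.insert_subset haN hLX
          have h2 : #(nb G {a}) + 1 ≤ #(nb G X) := by
            rw [← Finset.card_insert_of_notMem hLa]
            exact Finset.card_le_card h1
          have h3 : #X ≤ n := by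
            have := Finset.card_le_univ X
            rwa [Fintype.card_fin] at this
          have h4 := star_mono hφ h3 le_rfl
          have h5 := hφ.one (n - 1) (by omega)
          rw [Nat.sub_add_cancel hn] at h5
          have h6 : (#(nb G {a}) : ℝ) + 1 ≤ #(nb G X) := by exact_mod_cast h2
          unfold F
          linarith
      exact ⟨by linarith, fun h => by exfalso; linarith⟩
    · have hXE : X ⊆ univ.erase a := fun v hv => by
        rw [Finset.mem_erase]
        exact ⟨fun h => haX (h ▸ hv), Finset.mem_univ v⟩
      by_cases hXL : X ∩ nb G {a} = ∅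
      · have h1 : X ⊆ univ.erase a \ nb G {a} := by
          intro v hv
          rw [Finset.mem_sdiff]
          refine ⟨hXE hv, fun h => ?_⟩
          have : v ∈ X ∩ nb G {a} := Finset.mem_inter.2 ⟨hv, h⟩
          rw [hXL] at this
          exact absurd this (Finset.notMem_empty v)
        have h2 : #X ≤ n - 1 - #(nb G {a}) := by
          have := Finset.card_le_card h1
          rwa [Finset.card_sdiff_of_subset hLs, hcE] at this
        have h3 := star_mono hφ h2 (by omega)
        have h4 : φ (n - 1 - #(nb G {a})) < φ (n - 1) - 1 := (ht.2 _ (by omega)).2 htL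
        have h5 : F φ G X ≤ φ #X := by
          unfold F
          have : (0 : ℝ) ≤ #(nb G X) := Nat.cast_nonneg _
          linarith
        exact ⟨by linarith, fun h => by exfalso; linarith⟩
      · have haN : a ∈ nb G X := by
          obtain ⟨v, hv⟩ := Finset.nonempty_iff_ne_empty.2 hXL
          rw [Finset.mem_inter, hmemL] at hv
          rw [mem_nb]
          exact ⟨v, hv.1, hv.2.symm⟩
        have h1 : (1 : ℝ) ≤ #(nb G X) := by
          have : 1 ≤ #(nb G X) := Finset.card_pos.2 ⟨a, haN⟩
          exact_mod_cast this
        have h2 : #X ≤ n - 1 := by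
          rw [← hcE]
          exact Finset.card_le_card hXE
        have h3 := star_mono hφ h2 (by omega)
        refine ⟨by unfold F; linarith, fun h => ?_⟩
        unfold F at h
        have h4 : n - 1 ≤ #X := by
          by_contra hcon
          push Not at hcon
          have := star_strict hφ hcon (by omega)
          linarith
        rw [← hcE] at h4
        rw [Finset.eq_of_subset_of_card_le hXE h4]

end Pool.Agent.H17.HX
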