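import Pool.Agent.H17.HX.Base

set_option autoImplicit false

/-! HX-T (helper29) -/

namespace Pool.Agent.H17.HX

open Finset

variable {n : ℕ}

theorem Adm.mono' {φ : ℕ → ℝ} (hφ : Adm n φ) (i : ℕ) : ∀ k, i + k ≤ n → φ i ≤ φ (i + k) := by
  intro k
  induction k with
  | zero => intro _; exact le_rfl
  | succ k ih =>
    intro h
    have h1 := ih (by omega)
    have h2 := hφ.inc (i + k) (by omega)
    rw [show i + (k + 1) = i + k + 1 by ring]
    linarith

theorem exists_t (n : ℕ) (hn : 2 ≤ n) (φ : ℕ → ℝ) (hφ : Adm n φ) : ∃ t, IsT n φ t := by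
  classical
  let P : ℕ → Prop := fun j => φ (n - 1) - 1 ≤ φ (n - 1 - j)
  have hP1 : P 1 := by
    have h := hφ.one (n - 2) (by omega)
    have e : n - 2 + 1 = n - 1 := by omega
    have e2 : n - 1 - 1 = n - 2 := by omega
    rw [e] at h
    show φ (n - 1) - 1 ≤ φ (n - 1 - 1)
    rw [e2]
    linarith
  refine ⟨Nat.findGreatest P (n - 1), Nat.le_findGreatest (by omega) hP1, fun j hj => ?_⟩
  have hPt : P (Nat.findGreatest P (n - 1)) :=
    Nat.findGreatest_spec (P := P) (show 1 ≤ n - 1 by omega) hP1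
  have hle : Nat.findGreatest P (n - 1) ≤ n - 1 := Nat.findGreatest_le _
  constructor
  · intro h
    by_contra hcon
    push Not at hcon
    have h1 := hφ.mono' (n - 1 - Nat.findGreatest P (n - 1)) (Nat.findGreatest P (n - 1) - j)
      (by omega)
    have e : n - 1 - Nat.findGreatest P (n - 1) + (Nat.findGreatest P (n - 1) - j) = n - 1 - j := by
      omega
    rw [e] at h1
    have h2 : φ (n - 1) - 1 ≤ φ (n - 1 - Nat.findGreatest P (n - 1)) := hPt
    linarith
  · intro h
    have h1 : ¬ P j := Nat.findGreatest_is_greatest h (by omega)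
    exact not_le.1 h1

end Pool.Agent.H17.HX
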