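import Pool.Agent.H17.HX.Base

set_option autoImplicit false

namespace Pool.Agent.H17.HX

open Finset

variable {n : ℕ}

theorem tog_nb_of_notMem (G : SimpleGraph (Fin n)) {a u : Fin n} (hau : a ≠ u) (Y : Finset (Fin n))
    (ha : a ∉ Y) (hu : u ∉ Y) : nb (tog G s(a, u)) Y = nb G Y := by
  ext v
  rw [mem_nb, mem_nb]
  refine exists_congr fun w => and_congr_right fun hw => ?_
  rw [tog_adj G hau, if_neg]
  intro h
  rw [Sym2.eq_iff] at h
  rcases h with ⟨h1, h2⟩ | ⟨h1, h2⟩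
  · exact ha (h1 ▸ hw)
  · exact hu (h1 ▸ hw)

theorem tog_sm {φ : ℕ → ℝ}
    (hs : ∀ (G : SimpleGraph (Fin n)) (X Y : Finset (Fin n)),
      F φ G X + F φ G Y ≤ F φ G (X ∩ Y) + F φ G (X ∪ Y))
    (hex : ∀ G : SimpleGraph (Fin n), ∃ D, SM φ G D)
    (hind : ∀ (G : SimpleGraph (Fin n)) (D : Finset (Fin n)), SM φ G D →
      ∀ u ∈ D, ∀ v ∈ D, ¬ G.Adj u v)
    (G : SimpleGraph (Fin n)) (D : Finset (Fin n))
    (hD : SM φ G D) {a u : Fin n} (ha : a ∈ nb G D) (hu : u ∉ D) (hau : a ≠ u) :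
    SM φ (tog G s(a, u)) D ∧ nb (tog G s(a, u)) D = nb G D := by
  have haD : a ∉ D := by
    intro h
    obtain ⟨w, hw, hwa⟩ := mem_nb.1 ha
    exact hind G D hD w hw a h hwa
  have h1 : ∀ Y ⊆ D, nb (tog G s(a, u)) Y = nb G Y := fun Y hY =>
    tog_nb_of_notMem G hau Y (fun h => haD (hY h)) (fun h => hu (hY h))
  have h1F : ∀ Y ⊆ D, F φ (tog G s(a, u)) Y = F φ G Y := by
    intro Y hY
    unfold F
    rw [h1 Y hY]
  obtain ⟨X, hX⟩ := hex (tog G s(a, u))
  have hDX : D ⊆ X := by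
    have e1 := hs (tog G s(a, u)) X D
    have e2 := (hX (X ∪ D)).1
    have e3 : F φ (tog G s(a, u)) D ≤ F φ (tog G s(a, u)) (X ∩ D) := by linarith
    rw [h1F D subset_rfl, h1F _ inter_subset_right] at e3
    exact ((hD (X ∩ D)).2 e3).trans inter_subset_left
  have haX' : a ∈ nb (tog G s(a, u)) X := by
    apply nb_mono hDX
    rw [h1 D subset_rfl]
    exact ha
  have haX : a ∉ X := by
    intro h
    obtain ⟨w, hw, hwa⟩ := mem_nb.1 haX'
    exact hind _ X hX w hw a h hwa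
  have h2 : nb G X = nb (tog G s(a, u)) X := by
    ext v
    by_cases hv : v = a
    · subst hv
      exact ⟨fun _ => haX', fun _ => nb_mono hDX ha⟩
    · rw [mem_nb, mem_nb]
      refine exists_congr fun w => and_congr_right fun hw => ?_
      rw [tog_adj G hau, if_neg]
      intro h
      rw [Sym2.eq_iff] at h
      rcases h with ⟨h1, h2⟩ | ⟨h1, h2⟩
      · exact haX (h1 ▸ hw)
      · exact hv h2
  have h2F : F φ G X = F φ (tog G s(a, u)) X := by
    unfold F
    rw [h2]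
  have hXD : X ⊆ D := by
    apply (hX D).2
    rw [← h2F, h1F D subset_rfl]
    exact (hD X).1
  have hXe : X = D := hXD.antisymm hDX
  subst hXe
  exact ⟨hX, h1 X subset_rfl⟩

end Pool.Agent.H17.HX
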