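import Pool.Agent.H17.HX.SUP
import Pool.Agent.H17.HX.SM
import Pool.Agent.H17.HX.IND
import Pool.Agent.H17.HX.ISO
import Pool.Agent.H17.HX.STAR
import Pool.Agent.H17.HX.SSUM
import Pool.Agent.H17.HX.ALL
import Pool.Agent.H17.HX.TOG
import Pool.Agent.H17.HX.BIN
import Pool.Agent.H17.HX.NZ1
import Pool.Agent.H17.HX.NZ2
import Pool.Agent.H17.HX.NORM
import Pool.Agent.H17.HX.T
import Pool.Agent.H17.HX.HALL
import Pool.Agent.H17.HX.FRAC

set_option autoImplicit false

/-! Assembly of project HX (helper17). -/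

namespace Pool.Agent.H17.HX

open Finset

variable {n : ℕ}

theorem sms {φ : ℕ → ℝ} (hφ : Adm n φ) (G : SimpleGraph (Fin n)) : ∃! D, SM φ G D :=
  sm_exists G (sup hφ G)

/-- the smallest maximiser -/
noncomputable def dst {φ : ℕ → ℝ} (hφ : Adm n φ) (G : SimpleGraph (Fin n)) : Finset (Fin n) :=
  (sms hφ G).choose

theorem dst_iff {φ : ℕ → ℝ} (hφ : Adm n φ) (G : SimpleGraph (Fin n)) (D : Finset (Fin n)) :
    SM φ G D ↔ dst hφ G = D := by
  have h := (sms hφ G).choose_spec
  constructor
  · intro hD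
    exact (h.2 D hD).symm
  · rintro rfl
    exact h.1

theorem SS_congr {P Q : SimpleGraph (Fin n) → Prop} (h : ∀ G, P G ↔ Q G) : SS P = SS Q := by
  classical
  unfold SS
  apply Finset.sum_congr
  · ext G
    simp [h G]
  · intros; rfl

theorem SS_false {P : SimpleGraph (Fin n) → Prop} (h : ∀ G, ¬ P G) : SS P = 0 := by
  classical
  unfold SS
  rw [Finset.sum_eq_zero]
  intro G hG
  simp [h G] at hG

theorem SS_split {ι : Type} [Fintype ι] (f : SimpleGraph (Fin n) → ι) (Q : SimpleGraph (Fin n) → Prop) :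
    SS Q = ∑ i, SS (fun G => Q G ∧ f G = i) := by
  classical
  unfold SS
  rw [← Finset.sum_fiberwise (s := univ.filter Q) (g := f)]
  apply Finset.sum_congr rfl
  intro i _
  apply Finset.sum_congr
  · ext G
    simp
  · intros; rfl

/-- the class sums -/
theorem class_zero {φ : ℕ → ℝ} (hφ : Adm n φ) (D A Z : Finset (Fin n)) (hA : A.Nonempty)
    (hne : ∀ a, ¬ (A = {a} ∧ D = univ.erase a)) :
    SS (fun G => SM φ G D ∧ nb G D = A ∧ nb G Z = ∅) = 0 := by
  classical
  by_cases hZD : Z ⊆ D
  swap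
  · apply SS_false
    rintro G ⟨h1, h2, h3⟩
    exact hZD (sm_isolated hφ G D h1 Z h3)
  by_cases hAD : Disjoint A D
  swap
  · apply SS_false
    rintro G ⟨h1, h2, h3⟩
    apply hAD
    rw [Finset.disjoint_left]
    intro v hv hvD
    rw [← h2, mem_nb] at hv
    obtain ⟨u, hu, huv⟩ := hv
    exact sm_indep hφ G D h1 u hu v hvD huv
  have key : ∃ a ∈ A, ∃ u, u ∉ D ∧ a ≠ u := by
    by_contra hcon
    push Not at hcon
    obtain ⟨a, ha⟩ := hA
    apply hne a
    have h1 : ∀ u, u ∉ D → a = u := hcon a ha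
    constructor
    · ext v
      rw [Finset.mem_singleton]
      constructor
      · intro hv
        exact (h1 v (Finset.disjoint_left.1 hAD hv)).symm
      · rintro rfl; exact ha
    · ext v
      rw [Finset.mem_erase]
      constructor
      · intro hv
        refine ⟨?_, Finset.mem_univ _⟩
        rintro rfl
        exact Finset.disjoint_left.1 hAD ha hv
      · rintro ⟨hv, -⟩
        by_contra hvD
        exact hv (h1 v hvD).symm
  obtain ⟨a, ha, u, hu, hau⟩ := key
  apply SS_zero _ s(a, u) (by simpa using hau)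
  rintro G ⟨h1, h2, h3⟩
  have h4 := tog_sm (fun G X Y => sup hφ G X Y) (fun G => (sms hφ G).exists)
    (fun G D hD => sm_indep hφ G D hD) G D h1 (a := a) (u := u) (by rw [h2]; exact ha) hu hau
  refine ⟨h4.1, h4.2.trans h2, ?_⟩
  rw [Finset.eq_empty_iff_forall_notMem]
  intro v hv
  rw [mem_nb] at hv
  obtain ⟨z, hz, hzv⟩ := hv
  rw [tog_adj G hau] at hzv
  have hzD := hZD hz
  have hne2 : s(z, v) ≠ s(a, u) := by
    intro h
    rw [Sym2.eq_iff] at h
    rcases h with ⟨h, -⟩ | ⟨h, -⟩
    · exact Finset.disjoint_left.1 hAD ha (h ▸ hzD)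
    · exact hu (h ▸ hzD)
  rw [if_neg hne2] at hzv
  have : v ∈ nb G Z := mem_nb.2 ⟨z, hz, hzv⟩
  rw [h3] at this
  simp at this

theorem class_empty {φ : ℕ → ℝ} (hφ : Adm n φ) (D Z : Finset (Fin n)) :
    SS (fun G => SM φ G D ∧ nb G D = ∅ ∧ nb G Z = ∅) = if Z ⊆ D then W φ D else 0 := by
  classical
  split_ifs with h
  · apply SS_congr
    intro G
    constructor
    · rintro ⟨h1, h2, -⟩
      exact ⟨h1, h2⟩
    · rintro ⟨h1, h2⟩
      refine ⟨h1, h2, ?_⟩
      rw [← Finset.subset_empty, ← h2]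
      exact nb_mono h
  · apply SS_false
    rintro G ⟨h1, h2, h3⟩
    exact h (sm_isolated hφ G D h1 Z h3)

theorem class_star {φ : ℕ → ℝ} (hφ : Adm n φ) {t : ℕ} (ht : IsT n φ t) (a : Fin n)
    (Z : Finset (Fin n)) :
    SS (fun G => SM φ G (univ.erase a) ∧ nb G (univ.erase a) = {a} ∧ nb G Z = ∅) =
      if a ∉ Z then sg t (n - 1 - #Z) else 0 := by
  classical
  by_cases h : a ∈ Z
  · rw [if_neg (not_not.2 h)]
    apply SS_false
    rintro G ⟨h1, h2, h3⟩
    have := sm_isolated hφ G _ h1 Z h3 h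
    simp at this
  · rw [if_pos h, ← star_sum t a Z h]
    apply SS_congr
    intro G
    rw [← star_iff hφ ht]
    tauto

/-- the sum over a union of classes -/
theorem class_sum {φ : ℕ → ℝ} (hφ : Adm n φ) {t : ℕ} (ht : IsT n φ t)
    (Q : Finset (Fin n) → ℕ → Prop) (Z : Finset (Fin n)) [∀ D k, Decidable (Q D k)] :
    SS (fun G => Q (dst hφ G) #(nb G (dst hφ G)) ∧ nb G Z = ∅) =
      (∑ D, if Z ⊆ D ∧ Q D 0 then W φ D else 0) +
        ∑ a, if a ∉ Z ∧ Q (univ.erase a) 1 then sg t (n - 1 - #Z) else 0 := by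
  classical
  rw [SS_split (fun G => (dst hφ G, nb G (dst hφ G)))]
  have h1 : ∀ p : Finset (Fin n) × Finset (Fin n),
      SS (fun G => (Q (dst hφ G) #(nb G (dst hφ G)) ∧ nb G Z = ∅) ∧
        (dst hφ G, nb G (dst hφ G)) = p) =
      if Q p.1 #p.2 then SS (fun G => SM φ G p.1 ∧ nb G p.1 = p.2 ∧ nb G Z = ∅) else 0 := by
    rintro ⟨D, A⟩
    split_ifs with h
    · apply SS_congr
      intro G
      rw [dst_iff hφ, Prod.mk.injEq]
      constructor
      · rintro ⟨⟨h1, h2⟩, h3, h4⟩
        refine ⟨h3, ?_, h2⟩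
        rw [← h3]; exact h4
      · rintro ⟨h3, h4, h2⟩
        subst h3
        exact ⟨⟨by rw [h4]; exact h, h2⟩, rfl, h4⟩
    · apply SS_false
      rintro G ⟨⟨h1, h2⟩, h3⟩
      rw [Prod.mk.injEq] at h3
      apply h
      rw [← h3.1, ← h3.2]
      exact h1
  rw [Finset.sum_congr rfl (fun p _ => h1 p), Fintype.sum_prod_type]
  have h2 : ∀ D : Finset (Fin n),
      (∑ A : Finset (Fin n), if Q D #A then SS (fun G => SM φ G D ∧ nb G D = A ∧ nb G Z = ∅)
        else 0) =
      (if Z ⊆ D ∧ Q D 0 then W φ D else 0) +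
        ∑ a : Fin n, if D = univ.erase a then
          (if a ∉ Z ∧ Q (univ.erase a) 1 then sg t (n - 1 - #Z) else 0) else 0 := by
    intro D
    rw [← Finset.add_sum_erase _ _ (Finset.mem_univ (∅ : Finset (Fin n)))]
    congr 1
    · rw [Finset.card_empty, class_empty hφ]
      by_cases hZ : Z ⊆ D <;> by_cases hQ : Q D 0 <;> simp [hZ, hQ]
    · by_cases hD : ∃ a, D = univ.erase a
      · obtain ⟨a, ha⟩ := hD
        have huniq : ∀ b : Fin n, D = univ.erase b ↔ b = a := by
          intro b
          constructor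
          · intro hb
            by_contra hne
            have : a ∈ D := by
              rw [hb, Finset.mem_erase]
              exact ⟨fun h => hne h.symm, Finset.mem_univ _⟩
            rw [ha] at this
            simp at this
          · rintro rfl; exact ha
        have hr : (∑ b : Fin n, if D = univ.erase b then
            (if b ∉ Z ∧ Q (univ.erase b) 1 then sg t (n - 1 - #Z) else 0) else 0) =
            if a ∉ Z ∧ Q (univ.erase a) 1 then sg t (n - 1 - #Z) else 0 := by
          rw [Finset.sum_eq_single a]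
          · rw [if_pos ha]
          · intro b _ hb
            rw [if_neg (fun h => hb ((huniq b).1 h))]
          · intro h; exact absurd (Finset.mem_univ a) h
        rw [hr, Finset.sum_eq_single ({a} : Finset (Fin n))]
        · rw [Finset.card_singleton, ha, class_star hφ ht]
          by_cases hZ : a ∉ Z <;> by_cases hQ : Q (univ.erase a) 1 <;> simp [hZ, hQ]
        · intro A hA hne
          rw [class_zero hφ D A Z (Finset.nonempty_iff_ne_empty.2 (Finset.ne_of_mem_erase hA))]
          · simp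
          · rintro b ⟨h3, h4⟩
            rw [huniq] at h4
            rw [h4] at h3
            exact hne h3
        · intro h
          exfalso
          apply h
          rw [Finset.mem_erase]
          exact ⟨Finset.singleton_ne_empty a, Finset.mem_univ _⟩
      · push Not at hD
        rw [Finset.sum_eq_zero, Finset.sum_eq_zero]
        · intro a _
          rw [if_neg (hD a)]
        · intro A hA
          rw [class_zero hφ D A Z (Finset.nonempty_iff_ne_empty.2 (Finset.ne_of_mem_erase hA))]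
          · simp
          · rintro b ⟨-, h4⟩
            exact hD b h4
  have h1' := Finset.sum_congr (rfl : (univ : Finset (Finset (Fin n))) = univ) (fun D _ => h2 D)
  rw [show (∑ x : Finset (Fin n), ∑ y : Finset (Fin n),
      if Q (x, y).1 #(x, y).2 then SS (fun G => SM φ G (x, y).1 ∧ nb G (x, y).1 = (x, y).2 ∧
        nb G Z = ∅) else 0) = _ from h1', Finset.sum_add_distrib]
  congr 1
  rw [Finset.sum_comm]
  apply Finset.sum_congr rfl
  intro a _
  rw [Finset.sum_ite_eq' univ (univ.erase a)]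
  simp

theorem sum_sup (Z : Finset (Fin n)) (g : ℕ → ℤ) :
    (∑ D : Finset (Fin n), if Z ⊆ D then g (n - #D) else 0) =
      ∑ j ∈ range (n - #Z + 1), ((n - #Z).choose j : ℤ) * g j := by
  classical
  have h1 : (∑ D : Finset (Fin n), if Z ⊆ D then g (n - #D) else 0) =
      ∑ X ∈ (Zᶜ).powerset, g #X := by
    rw [← Finset.sum_filter]
    apply Finset.sum_nbij' (fun D => Dᶜ) (fun X => Xᶜ)
    · intro D hD
      rw [Finset.mem_filter] at hD
      rw [Finset.mem_powerset]
      exact Finset.compl_subset_compl.2 hD.2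
    · intro X hX
      rw [Finset.mem_powerset] at hX
      rw [Finset.mem_filter]
      refine ⟨Finset.mem_univ _, ?_⟩
      rw [← Finset.compl_subset_compl]
      simpa using hX
    · intro D _; simp
    · intro X _; simp
    · intro D _
      rw [Finset.card_compl, Fintype.card_fin]
  rw [h1, Finset.sum_powerset_apply_card, Finset.card_compl, Fintype.card_fin]
  apply Finset.sum_congr rfl
  intro j _
  simp

theorem W_eq {φ : ℕ → ℝ} (hφ : Adm n φ) {t : ℕ} (ht : IsT n φ t) :
    ∀ k : ℕ, ∀ Z : Finset (Fin n), n - #Z = k → W φ Z = w t (n - #Z) := by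
  classical
  intro k
  induction k using Nat.strong_induction_on with
  | _ k ih =>
    intro Z hk
    have h1 := class_sum hφ ht (fun _ _ => True) Z
    have h2 : SS (fun G : SimpleGraph (Fin n) => True ∧ nb G Z = ∅) =
        if n ≤ #Z + 1 then 1 else 0 := by
      rw [← all_sum Z]
      exact SS_congr (fun G => by simp)
    rw [h2] at h1
    have h3 : (∑ a : Fin n, if a ∉ Z ∧ True then sg t (n - 1 - #Z) else 0) =
        ((n - #Z : ℕ) : ℤ) * sg t (n - #Z - 1) := by
      have h4 : n - 1 - #Z = n - #Z - 1 := by omega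
      rw [h4]
      simp only [and_true]
      rw [← Finset.sum_filter, Finset.sum_const, nsmul_eq_mul]
      congr 2
      have : (univ.filter fun a : Fin n => a ∉ Z) = Zᶜ := by
        ext a; simp
      rw [this, Finset.card_compl, Fintype.card_fin]
    rw [h3] at h1
    have h5 := sum_sup Z (w t)
    have h6 := bin_rec t (n - #Z) ht.1
    rw [← h5] at h6
    have h7 : (∑ D : Finset (Fin n), if Z ⊆ D ∧ True then W φ D else 0) -
        (∑ D : Finset (Fin n), if Z ⊆ D then w t (n - #D) else 0) = 0 := by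
      have h8 : (n ≤ #Z + 1) ↔ (n - #Z ≤ 1) := by omega
      simp only [h8] at h1
      linarith
    rw [← Finset.sum_sub_distrib, Finset.sum_eq_single Z] at h7
    · simp at h7
      linarith
    · intro D _ hDZ
      by_cases hZD : Z ⊆ D
      · have hlt : #Z < #D := Finset.card_lt_card (Finset.ssubset_iff_subset_ne.2 ⟨hZD, hDZ.symm⟩)
        have hle : #D ≤ n := by
          have := Finset.card_le_univ D
          rwa [Fintype.card_fin] at this
        rw [if_pos ⟨hZD, trivial⟩, if_pos hZD, ih (n - #D) (by omega) D rfl]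
        ring
      · rw [if_neg (fun h => hZD h.1), if_neg hZD]
        ring
    · intro h; exact absurd (Finset.mem_univ Z) h

/-- the signed sum over the property -/
theorem P_sum {φ : ℕ → ℝ} (hφ : Adm n φ) {t : ℕ} (ht : IsT n φ t) (d : ℕ) (hd : d < n)
    (hφd : ∀ j, j ≤ n → (φ j ≤ 0 ↔ j ≤ d)) :
    SS (fun G : SimpleGraph (Fin n) => ∀ D, φ #D ≤ #(nb G D)) =
      ∑ c ∈ range (d + 1), (n.choose c : ℤ) * w t (n - c) +
        if φ (n - 1) ≤ 1 then (n : ℤ) * sg t (n - 1) else 0 := by
  classical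
  have h1 := class_sum hφ ht (fun D k => φ #D ≤ k) ∅
  have h2 : SS (fun G : SimpleGraph (Fin n) => ∀ D, φ #D ≤ #(nb G D)) =
      SS (fun G => φ #(dst hφ G) ≤ #(nb G (dst hφ G)) ∧ nb G ∅ = ∅) := by
    apply SS_congr
    intro G
    constructor
    · intro h
      refine ⟨h _, ?_⟩
      rw [Finset.eq_empty_iff_forall_notMem]
      intro v hv
      rw [mem_nb] at hv
      simp at hv
    · rintro ⟨h, -⟩ D
      have h3 := ((dst_iff hφ G _).2 rfl D).1
      unfold F at h3
      linarith
  rw [h2, h1]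
  congr 1
  · have h3 : ∀ D : Finset (Fin n), (if ∅ ⊆ D ∧ φ #D ≤ (0 : ℕ) then W φ D else 0) =
        if (∅ : Finset (Fin n)) ⊆ D then (fun m => if n ≤ m + d then w t m else 0) (n - #D)
          else 0 := by
      intro D
      have hle : #D ≤ n := by
        have := Finset.card_le_univ D
        rwa [Fintype.card_fin] at this
      have h4 := hφd #D hle
      simp only [Finset.empty_subset, true_and, if_true, Nat.cast_zero]
      have h5 : (n ≤ n - #D + d) ↔ #D ≤ d := by omega
      simp only [h4, h5]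
      rw [W_eq hφ ht _ D rfl]
    rw [Finset.sum_congr rfl (fun D _ => h3 D), sum_sup ∅ (fun m => if n ≤ m + d then w t m else 0)]
    simp only [Finset.card_empty, Nat.sub_zero]
    rw [← Finset.sum_range_reflect]
    have h6 : ∑ j ∈ range (n + 1), ((n.choose (n + 1 - 1 - j) : ℕ) : ℤ) *
        (if n ≤ (n + 1 - 1 - j) + d then w t (n + 1 - 1 - j) else 0) =
        ∑ j ∈ range (n + 1), if j ≤ d then (n.choose j : ℤ) * w t (n - j) else 0 := by
      apply Finset.sum_congr rfl
      intro j hj
      rw [Finset.mem_range] at hj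
      have h7 : n + 1 - 1 - j = n - j := by omega
      have h8 : (n ≤ n - j + d) ↔ j ≤ d := by omega
      rw [h7, Nat.choose_symm (by omega : j ≤ n)]
      simp only [h8]
      split_ifs <;> ring
    rw [h6, ← Finset.sum_filter]
    apply Finset.sum_congr
    · ext j
      simp only [Finset.mem_filter, Finset.mem_range]
      omega
    · intros; rfl
  · have h3 : ∀ a : Fin n, (if a ∉ (∅ : Finset (Fin n)) ∧ φ #(univ.erase a) ≤ (1 : ℕ) then
        sg t (n - 1 - #(∅ : Finset (Fin n))) else 0) = if φ (n - 1) ≤ 1 then sg t (n - 1) else 0 := by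
      intro a
      rw [Finset.card_erase_of_mem (Finset.mem_univ a), Finset.card_univ, Fintype.card_fin]
      simp
    rw [Finset.sum_congr rfl (fun a _ => h3 a), Finset.sum_const, Finset.card_univ,
      Fintype.card_fin]
    split_ifs <;> simp

theorem evasive_adm (hn : 2 ≤ n) {φ : ℕ → ℝ} (hφ : Adm n φ) (d : ℕ) (hd : d < n)
    (hφd : ∀ j, j ≤ n → (φ j ≤ 0 ↔ j ≤ d)) :
    Ev n (fun G : SimpleGraph (Fin n) => ∀ D, φ #D ≤ #(nb G D)) := by
  classical
  obtain ⟨t, ht⟩ := exists_t n hn φ hφ
  by_contra hcon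
  have h0 := chi_zero hn _ hcon
  have h1 := P_sum hφ ht d hd hφd
  have h2 : SS (fun G : SimpleGraph (Fin n) => ∀ D, φ #D ≤ #(nb G D)) = 0 := by
    rw [← h0]
    unfold SS
    apply Finset.sum_congr
    · ext G
      simp
    · intros; rfl
  rw [h2] at h1
  split_ifs at h1 with h3
  · refine nz_two n t d hn ht.1 hd ?_ (bin_rec t n ht.1) h1.symm
    by_contra h4
    push Not at h4
    have h5 := (ht.2 (t + 1) (by omega)).2 (by omega)
    have h6 : φ (n - 1 - (t + 1)) ≤ 0 := by linarith
    rw [hφd _ (by omega)] at h6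
    omega
  · rw [add_zero] at h1
    refine nz_one n t d hd ?_ h1.symm
    by_contra h4
    push Not at h4
    push Not at h3
    by_cases h7 : t + 1 ≤ n
    · have h5 : ¬ φ (n - 1 - t) < φ (n - 1) - 1 := fun h => absurd ((ht.2 t h7).1 h) (by omega)
      have h6 : ¬ φ (n - 1 - t) ≤ 0 := by linarith
      rw [hφd _ (by omega)] at h6
      omega
    · have h5 : ¬ φ (n - 1 - (n - 1)) < φ (n - 1) - 1 :=
        fun h => absurd ((ht.2 (n - 1) (by omega)).1 h) (by omega)
      have h6 : ¬ φ (n - 1 - (n - 1)) ≤ 0 := by linarith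
      rw [hφd _ (by omega)] at h6
      omega

theorem evasive_profile (hn : 2 ≤ n) (φ : ℕ → ℝ) (h1 : ∀ j, j < n → φ (j + 1) ≤ φ j + 1)
    (h2 : ∀ j, j + 2 ≤ n → φ (j + 1) - φ j ≤ φ (j + 2) - φ (j + 1)) (h0 : φ 0 ≤ 0) (h3 : 0 < φ n) :
    Ev n (fun G : SimpleGraph (Fin n) => ∀ D : Finset (Fin n), φ #D ≤ #(nb G D)) := by
  obtain ⟨φ', d, hφ', hd, hφd, hk⟩ := norm n hn φ h1 h2 h0 h3
  have h4 := evasive_adm hn hφ' d hd hφd
  have h5 : (fun G : SimpleGraph (Fin n) => ∀ D : Finset (Fin n), φ #D ≤ #(nb G D)) =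
      fun G : SimpleGraph (Fin n) => ∀ D : Finset (Fin n), φ' #D ≤ #(nb G D) := by
    ext G
    apply forall_congr'
    intro D
    apply hk
    have := Finset.card_le_univ D
    rwa [Fintype.card_fin] at this
  rw [h5]
  exact h4

end Pool.Agent.H17.HX
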