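import Mathlib

set_option autoImplicit false

/-! The parity argument (`chi_zero`) is copied from the library file
`Pool.Graph.R_seed8.W912.KA.Graph`; the definitions for the neighbourhood conditions follow.
helper17. -/

namespace Pool.Agent.H17.HX

open Finset

/-- `P` is evasive, in the form of the frozen statement of MP_257582_lc. -/
def Ev (n : ℕ) (P : SimpleGraph (Fin n) → Prop) : Prop :=
  ∀ s : Finset (Sym2 (Fin n)) → SimpleGraph (Fin n) → Sym2 (Fin n),
    (∀ (Q : Finset (Sym2 (Fin n))) (G H : SimpleGraph (Fin n)),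
        (∀ e ∈ Q, (e ∈ G.edgeSet ↔ e ∈ H.edgeSet)) → s Q G = s Q H) →
    ∃ G H : SimpleGraph (Fin n),
      (∀ e ∈ (fun Q : Finset (Sym2 (Fin n)) => insert (s Q G) Q)^[n.choose 2 - 1]
            (∅ : Finset (Sym2 (Fin n))),
          (e ∈ G.edgeSet ↔ e ∈ H.edgeSet)) ∧ P G ∧ ¬ P H

variable {n : ℕ}

/-- the edges as a finset -/
noncomputable def ed (G : SimpleGraph (Fin n)) : Finset (Sym2 (Fin n)) :=
  G.edgeSet.toFinite.toFinset

theorem mem_ed (G : SimpleGraph (Fin n)) (e : Sym2 (Fin n)) : e ∈ ed G ↔ e ∈ G.edgeSet := by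
  simp [ed]

theorem ed_inj {G H : SimpleGraph (Fin n)} (h : ed G = ed H) : G = H := by
  apply SimpleGraph.edgeSet_injective
  ext e
  rw [← mem_ed, ← mem_ed, h]

theorem ed_lt {G H : SimpleGraph (Fin n)} (h : G < H) : #(ed G) < #(ed H) := by
  apply Finset.card_lt_card
  rw [Finset.ssubset_iff_subset_ne]
  constructor
  · intro e he
    rw [mem_ed] at he ⊢
    exact SimpleGraph.edgeSet_mono h.le he
  · intro h1
    exact h.ne (ed_inj h1)

/-- the edges of the complete graph -/
noncomputable def top (n : ℕ) : Finset (Sym2 (Fin n)) := ed (⊤ : SimpleGraph (Fin n))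

theorem card_top (n : ℕ) : #(top n) = n.choose 2 := by
  classical
  have h := SimpleGraph.card_edgeFinset_top_eq_card_choose_two (V := Fin n)
  rw [Fintype.card_fin] at h
  rw [← h]
  congr 1
  ext e
  rw [top, mem_ed, SimpleGraph.mem_edgeFinset]

theorem ed_sub (G : SimpleGraph (Fin n)) : ed G ⊆ top n := by
  intro e he
  rw [top, mem_ed]
  rw [mem_ed] at he
  exact SimpleGraph.edgeSet_mono le_top he

/-- the graph with a given edge set -/
def gr (A : Finset (Sym2 (Fin n))) : SimpleGraph (Fin n) := SimpleGraph.fromEdgeSet (A : Set _)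

theorem ed_gr {A : Finset (Sym2 (Fin n))} (hA : A ⊆ top n) : ed (gr A) = A := by
  ext e
  rw [mem_ed, gr, SimpleGraph.edgeSet_fromEdgeSet]
  constructor
  · rintro ⟨h, -⟩
    exact h
  · intro h
    refine ⟨h, ?_⟩
    have := hA h
    rw [top, mem_ed] at this
    exact SimpleGraph.not_isDiag_of_mem_edgeSet _ this

/-- the unqueried edge only depends on the set of queries -/
theorem chi_zero (hn : 2 ≤ n) (P : SimpleGraph (Fin n) → Prop) (hP : ¬ Ev n P)
    [Fintype (SimpleGraph (Fin n))] [DecidablePred P] :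
    ∑ G : SimpleGraph (Fin n) with P G, (-1 : ℤ) ^ #(ed G) = 0 := by
  classical
  unfold Ev at hP
  push Not at hP
  obtain ⟨s, hs, hGH⟩ := hP
  let it : ℕ → SimpleGraph (Fin n) → Finset (Sym2 (Fin n)) := fun k G =>
    (fun Q : Finset (Sym2 (Fin n)) => insert (s Q G) Q)^[k] (∅ : Finset (Sym2 (Fin n)))
  have it_succ : ∀ k G, it (k + 1) G = insert (s (it k G) G) (it k G) := by
    intro k G
    simp only [it]
    rw [Function.iterate_succ_apply']
  have it_card : ∀ k G, #(it k G) ≤ k := by
    intro k G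
    induction k with
    | zero => simp [it]
    | succ k ih => rw [it_succ]; exact (Finset.card_insert_le _ _).trans (by omega)
  have it_eq : ∀ k (G H : SimpleGraph (Fin n)),
      (∀ e ∈ it k G, (e ∈ G.edgeSet ↔ e ∈ H.edgeSet)) → it k H = it k G := by
    intro k G H
    induction k with
    | zero => intro _; simp [it]
    | succ k ih =>
      intro h
      have h1 : it k H = it k G := ih (fun e he => h e (by rw [it_succ]; exact mem_insert_of_mem he))
      rw [it_succ, it_succ, h1]
      have h2 : s (it k G) H = s (it k G) G := by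
        apply hs
        intro e he
        exact (h e (by rw [it_succ]; exact mem_insert_of_mem he)).symm
      rw [h2]
  set m := n.choose 2 - 1 with hm
  have hpos : 0 < n.choose 2 := Nat.choose_pos hn
  have hex : ∀ Q : Finset (Sym2 (Fin n)), #Q ≤ m → ∃ e ∈ top n, e ∉ Q := by
    intro Q hQ
    by_contra hcon
    push Not at hcon
    have := Finset.card_le_card (s := top n) (t := Q) hcon
    rw [card_top] at this
    omega
  let ch : Finset (Sym2 (Fin n)) → Sym2 (Fin n) := fun Q =>
    if h : ∃ e ∈ top n, e ∉ Q then h.choose else s Q ⊥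
  have hch : ∀ Q : Finset (Sym2 (Fin n)), #Q ≤ m → ch Q ∈ top n ∧ ch Q ∉ Q := by
    intro Q hQ
    have h := hex Q hQ
    simp only [ch, dif_pos h]
    exact h.choose_spec
  let fl : SimpleGraph (Fin n) → SimpleGraph (Fin n) := fun G =>
    gr (symmDiff (ed G) {ch (it m G)})
  have hcG : ∀ G, ch (it m G) ∈ top n ∧ ch (it m G) ∉ it m G := fun G => hch _ (it_card m G)
  have edfl : ∀ G, ed (fl G) = symmDiff (ed G) {ch (it m G)} := by
    intro G
    apply ed_gr
    intro e he
    rw [Finset.mem_symmDiff] at he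
    rcases he with he | he
    · exact ed_sub G he.1
    · rw [Finset.mem_singleton.1 he.1]; exact (hcG G).1
  have agree : ∀ G, ∀ e ∈ it m G, (e ∈ G.edgeSet ↔ e ∈ (fl G).edgeSet) := by
    intro G e he
    rw [← mem_ed, ← mem_ed, edfl, Finset.mem_symmDiff, Finset.mem_singleton]
    have hne : e ≠ ch (it m G) := fun h => (hcG G).2 (h ▸ he)
    tauto
  have itfl : ∀ G, it m (fl G) = it m G := fun G => it_eq m G (fl G) (agree G)
  have flfl : ∀ G, fl (fl G) = G := by
    intro G
    apply ed_inj
    rw [edfl, edfl, itfl]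
    exact symmDiff_symmDiff_cancel_right _ _
  have Pfl : ∀ G, P G ↔ P (fl G) := by
    intro G
    constructor
    · exact hGH G (fl G) (agree G)
    · intro h
      have := hGH (fl G) (fl (fl G)) (agree (fl G)) h
      rwa [flfl] at this
  have parity : ∀ G, (-1 : ℤ) ^ #(ed G) + (-1 : ℤ) ^ #(ed (fl G)) = 0 := by
    intro G
    by_cases h : ch (it m G) ∈ ed G
    · have h1 : ed (fl G) = (ed G).erase (ch (it m G)) := by
        rw [edfl]
        ext e
        simp only [Finset.mem_symmDiff, Finset.mem_singleton, Finset.mem_erase]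
        constructor
        · rintro (h1 | h1)
          · exact ⟨h1.2, h1.1⟩
          · exact absurd (h1.1 ▸ h) h1.2
        · rintro ⟨h1, h2⟩
          exact Or.inl ⟨h2, h1⟩
      have h2 := Finset.card_erase_add_one h
      rw [h1, ← h2, pow_succ]
      ring
    · have h1 : ed (fl G) = insert (ch (it m G)) (ed G) := by
        rw [edfl]
        ext e
        simp only [Finset.mem_symmDiff, Finset.mem_singleton, Finset.mem_insert]
        constructor
        · rintro (h1 | h1)
          · exact Or.inr h1.1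
          · exact Or.inl h1.1
        · rintro (h1 | h1)
          · exact Or.inr ⟨h1, h1 ▸ h⟩
          · exact Or.inl ⟨h1, fun h2 => h (h2 ▸ h1)⟩
      rw [h1, Finset.card_insert_of_notMem h, pow_succ]
      ring
  apply Finset.sum_involution (fun G _ => fl G)
  · intro G _
    exact parity G
  · intro G _ _ h
    have := parity G
    rw [h] at this
    have h3 : ((-1 : ℤ) ^ #(ed G)) ≠ 0 := pow_ne_zero _ (by norm_num)
    omega
  · intro G hG
    rw [Finset.mem_filter] at hG ⊢
    exact ⟨Finset.mem_univ _, (Pfl G).1 hG.2⟩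
  · intro G _
    exact flfl G


/-! ### Neighbourhood conditions -/

open Classical in
/-- the vertices with a neighbour in `D` -/
noncomputable def nb (G : SimpleGraph (Fin n)) (D : Finset (Fin n)) : Finset (Fin n) :=
  univ.filter fun v => ∃ u ∈ D, G.Adj u v

/-- the excess of a set -/
noncomputable def F (φ : ℕ → ℝ) (G : SimpleGraph (Fin n)) (D : Finset (Fin n)) : ℝ :=
  φ #D - #(nb G D)

/-- `D` is the smallest maximiser of `F` -/
def SM (φ : ℕ → ℝ) (G : SimpleGraph (Fin n)) (D : Finset (Fin n)) : Prop :=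
  ∀ X, F φ G X ≤ F φ G D ∧ (F φ G D ≤ F φ G X → D ⊆ X)

/-- `φ` is convex and strictly increasing with slopes at most `1` on `{0, ..., n}` -/
structure Adm (n : ℕ) (φ : ℕ → ℝ) : Prop where
  inc : ∀ j, j < n → φ j < φ (j + 1)
  one : ∀ j, j < n → φ (j + 1) ≤ φ j + 1
  cvx : ∀ j, j + 2 ≤ n → φ (j + 1) - φ j ≤ φ (j + 2) - φ (j + 1)

/-- `t` is the largest number `j` of steps down from `n - 1` that lower `φ` by at most one -/
def IsT (n : ℕ) (φ : ℕ → ℝ) (t : ℕ) : Prop :=
  1 ≤ t ∧ ∀ j, j + 1 ≤ n → (φ (n - 1 - j) < φ (n - 1) - 1 ↔ t < j)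

open Classical in
/-- signed number of the graphs with `Q` -/
noncomputable def SS (Q : SimpleGraph (Fin n) → Prop) : ℤ :=
  ∑ G : SimpleGraph (Fin n) with Q G, (-1 : ℤ) ^ #(ed G)

/-- the signed number of the graphs with smallest maximiser `D` and `nb G D = ∅` -/
noncomputable def W (φ : ℕ → ℝ) (D : Finset (Fin n)) : ℤ :=
  SS (fun G => SM φ G D ∧ nb G D = ∅)

/-- the signed number of the subsets with more than `t` elements of a set of `M` elements -/
def sg (t M : ℕ) : ℤ := ∑ j ∈ range (M + 1), if t < j then (-1 : ℤ) ^ j * (M.choose j : ℤ) else 0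

/-- closed form of `W` -/
def w (t m : ℕ) : ℤ := if m ≤ t + 1 then -((-1 : ℤ) ^ m * ((m : ℤ) - 1)) else (-1 : ℤ) ^ m

theorem mem_nb {G : SimpleGraph (Fin n)} {D : Finset (Fin n)} {v : Fin n} :
    v ∈ nb G D ↔ ∃ u ∈ D, G.Adj u v := by
  simp [nb]

theorem nb_mono {G : SimpleGraph (Fin n)} {D X : Finset (Fin n)} (h : D ⊆ X) : nb G D ⊆ nb G X := by
  intro v hv
  rw [mem_nb] at hv ⊢
  obtain ⟨u, hu, huv⟩ := hv
  exact ⟨u, h hu, huv⟩

theorem nb_union (G : SimpleGraph (Fin n)) (D X : Finset (Fin n)) :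
    nb G (D ∪ X) = nb G D ∪ nb G X := by
  ext v
  simp only [mem_nb, Finset.mem_union]
  constructor
  · rintro ⟨u, hu | hu, h⟩
    · exact Or.inl ⟨u, hu, h⟩
    · exact Or.inr ⟨u, hu, h⟩
  · rintro (⟨u, hu, h⟩ | ⟨u, hu, h⟩)
    · exact ⟨u, Or.inl hu, h⟩
    · exact ⟨u, Or.inr hu, h⟩

/-- toggle a pair -/
noncomputable def tog (G : SimpleGraph (Fin n)) (e : Sym2 (Fin n)) : SimpleGraph (Fin n) := by
  classical exact gr (symmDiff (ed G) {e})

theorem ed_tog (G : SimpleGraph (Fin n)) {e : Sym2 (Fin n)} (he : ¬ e.IsDiag) :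
    ed (tog G e) = symmDiff (ed G) {e} := by
  classical
  have h : ed (gr (symmDiff (ed G) {e})) = symmDiff (ed G) {e} := by
    apply ed_gr
    intro x hx
    rw [Finset.mem_symmDiff] at hx
    rcases hx with hx | hx
    · exact ed_sub G hx.1
    · rw [Finset.mem_singleton.1 hx.1, top, mem_ed]
      simpa using he
  unfold tog
  convert h

theorem tog_tog (G : SimpleGraph (Fin n)) {e : Sym2 (Fin n)} (he : ¬ e.IsDiag) :
    tog (tog G e) e = G := by
  classical
  apply ed_inj
  rw [ed_tog _ he, ed_tog _ he]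
  exact symmDiff_symmDiff_cancel_right _ _

theorem tog_adj (G : SimpleGraph (Fin n)) {a u : Fin n} (hau : a ≠ u) (x y : Fin n) :
    (tog G s(a, u)).Adj x y ↔ (if s(x, y) = s(a, u) then ¬ G.Adj x y else G.Adj x y) := by
  classical
  have h1 : (tog G s(a, u)).Adj x y ↔ s(x, y) ∈ ed (tog G s(a, u)) := by
    rw [mem_ed, SimpleGraph.mem_edgeSet]
  have h2 : G.Adj x y ↔ s(x, y) ∈ ed G := by rw [mem_ed, SimpleGraph.mem_edgeSet]
  rw [h1, h2, ed_tog G (by simpa using hau), Finset.mem_symmDiff, Finset.mem_singleton]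
  split_ifs with h
  · tauto
  · tauto

theorem tog_parity (G : SimpleGraph (Fin n)) {e : Sym2 (Fin n)} (he : ¬ e.IsDiag) :
    (-1 : ℤ) ^ #(ed G) + (-1 : ℤ) ^ #(ed (tog G e)) = 0 := by
  classical
  rw [ed_tog G he]
  by_cases h : e ∈ ed G
  · have h1 : symmDiff (ed G) {e} = (ed G).erase e := by
      ext x
      simp only [Finset.mem_symmDiff, Finset.mem_singleton, Finset.mem_erase]
      constructor
      · rintro (h1 | h1)
        · exact ⟨h1.2, h1.1⟩
        · exact absurd (h1.1 ▸ h) h1.2
      · rintro ⟨h1, h2⟩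
        exact Or.inl ⟨h2, h1⟩
    have h2 := Finset.card_erase_add_one h
    rw [h1, ← h2, pow_succ]
    ring
  · have h1 : symmDiff (ed G) {e} = insert e (ed G) := by
      ext x
      simp only [Finset.mem_symmDiff, Finset.mem_singleton, Finset.mem_insert]
      constructor
      · rintro (h1 | h1)
        · exact Or.inr h1.1
        · exact Or.inl h1.1
      · rintro (h1 | h1)
        · exact Or.inr ⟨h1, h1 ▸ h⟩
        · exact Or.inl ⟨h1, fun h2 => h (h2 ▸ h1)⟩
    rw [h1, Finset.card_insert_of_notMem h, pow_succ]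
    ring

/-- signed sums over a class stable under toggling a fixed pair vanish -/
theorem SS_zero (Q : SimpleGraph (Fin n) → Prop) (e : Sym2 (Fin n)) (he : ¬ e.IsDiag)
    (hQ : ∀ G, Q G → Q (tog G e)) : SS Q = 0 := by
  classical
  unfold SS
  apply Finset.sum_involution (fun G _ => tog G e)
  · intro G _
    exact tog_parity G he
  · intro G _ _ h
    have := tog_parity G he
    rw [h] at this
    have h3 : ((-1 : ℤ) ^ #(ed G)) ≠ 0 := pow_ne_zero _ (by norm_num)
    omega
  · intro G hG
    rw [Finset.mem_filter] at hG ⊢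
    exact ⟨Finset.mem_univ _, hQ G hG.2⟩
  · intro G _
    exact tog_tog G he

end Pool.Agent.H17.HX
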