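import Pool.Agent.H17.HX.Base

set_option autoImplicit false

/-! Project HX, stub SP1 (helper69). -/

namespace Pool.Agent.H17.HX

open Finset

/-- A star packing. -/
private def Stars {V : Type} [Fintype V] [DecidableEq V] (G : SimpleGraph V) (t : ℕ)
    (C L : Finset V) (c : V → V) : Prop :=
  Disjoint C L ∧ (∀ v ∈ L, c v ∈ C ∧ G.Adj v (c v)) ∧
    ∀ u ∈ C, 1 ≤ #(L.filter fun v => c v = u) ∧ #(L.filter fun v => c v = u) ≤ t

private theorem add_star {V : Type} [Fintype V] [DecidableEq V] (G : SimpleGraph V) (t : ℕ)
    (C L : Finset V) (c : V → V) (h : Stars G t C L c) (w : V) (K : Finset V)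
    (hw : w ∉ C ∪ L) (hK : Disjoint K (C ∪ L)) (hne : K.Nonempty) (hKt : #K ≤ t)
    (hadj : ∀ v ∈ K, G.Adj v w) :
    ∃ (C' L' : Finset V) (c' : V → V), Stars G t C' L' c' ∧
      C' ∪ L' = insert w (K ∪ (C ∪ L)) := by
  obtain ⟨h1, h2, h3⟩ := h
  have hwK : w ∉ K := fun hh => (G.loopless.irrefl w) (hadj w hh)
  have hK' : ∀ v ∈ K, v ∉ C ∧ v ∉ L := by
    intro v hv
    have := Finset.disjoint_left.1 hK hv
    simpa [not_or] using this
  have hw' : w ∉ C ∧ w ∉ L := by simpa [not_or] using hw
  have hCL : ∀ v ∈ C, v ∉ L := fun v hv => Finset.disjoint_left.1 h1 hv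
  refine ⟨insert w C, L ∪ K, fun v => if v ∈ K then w else c v, ⟨?_, ?_, ?_⟩, ?_⟩
  · rw [Finset.disjoint_left]
    intro v hv hv'
    rw [Finset.mem_insert] at hv
    rw [Finset.mem_union] at hv'
    rcases hv with rfl | hv
    · rcases hv' with hv' | hv'
      · exact hw'.2 hv'
      · exact hwK hv'
    · rcases hv' with hv' | hv'
      · exact hCL v hv hv'
      · exact (hK' v hv').1 hv
  · intro v hv
    rw [Finset.mem_union] at hv
    by_cases hvK : v ∈ K
    · simp only [hvK, if_true]
      exact ⟨Finset.mem_insert_self _ _, hadj v hvK⟩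
    · have hvL : v ∈ L := by tauto
      simp only [hvK, if_false]
      exact ⟨Finset.mem_insert_of_mem (h2 v hvL).1, (h2 v hvL).2⟩
  · intro u hu
    rw [Finset.mem_insert] at hu
    rcases hu with rfl | hu
    · have e : (L ∪ K).filter (fun v => (if v ∈ K then u else c v) = u) = K := by
        ext v
        simp only [Finset.mem_filter, Finset.mem_union]
        constructor
        · rintro ⟨hv, he⟩
          by_contra hvK
          rw [if_neg hvK] at he
          have hvL : v ∈ L := by tauto
          exact hw'.1 (he ▸ (h2 v hvL).1)
        · intro hv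
          exact ⟨Or.inr hv, by rw [if_pos hv]⟩
      rw [e]
      exact ⟨Finset.card_pos.2 hne, hKt⟩
    · have huw : u ≠ w := fun e => hw'.1 (e ▸ hu)
      have e : (L ∪ K).filter (fun v => (if v ∈ K then w else c v) = u)
          = L.filter (fun v => c v = u) := by
        ext v
        simp only [Finset.mem_filter, Finset.mem_union]
        constructor
        · rintro ⟨hv, he⟩
          by_cases hvK : v ∈ K
          · rw [if_pos hvK] at he
            exact absurd he.symm huw
          · rw [if_neg hvK] at he
            exact ⟨by tauto, he⟩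
        · rintro ⟨hv, he⟩
          have hvK : v ∉ K := fun hh => (hK' v hh).2 hv
          exact ⟨Or.inl hv, by rw [if_neg hvK]; exact he⟩
      rw [e]
      exact h3 u hu
  · ext v
    simp only [Finset.mem_union, Finset.mem_insert]
    tauto

private theorem step {V : Type} [Fintype V] [DecidableEq V] (G : SimpleGraph V) (t : ℕ)
    (m : V → V) (S : Finset V) (w x : V) (K : Finset V) (hne : K.Nonempty)
    (hadj : ∀ v ∈ insert x K, G.Adj v w) (hcard : #(insert x K) ≤ t)
    (hsub : insert w (insert x K) ⊆ S ∪ S.image m)
    (hw : w ∉ (S \ insert w (insert x K)).image m)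
    (hK : ∀ v ∈ K, v ∉ (S \ insert w (insert x K)).image m)
    (ih : ∃ (C L : Finset V) (c : V → V), Stars G t C L c ∧
      C ∪ L ⊆ (S \ insert w (insert x K)) ∪ (S \ insert w (insert x K)).image m ∧
      (S \ insert w (insert x K)) ⊆ C ∪ L) :
    ∃ (C L : Finset V) (c : V → V), Stars G t C L c ∧
      C ∪ L ⊆ S ∪ S.image m ∧ S ⊆ C ∪ L := by
  obtain ⟨C, L, c, hS, hCL, hcov⟩ := ih
  set S' := S \ insert w (insert x K) with hS'
  have hmono : S' ∪ S'.image m ⊆ S ∪ S.image m :=
    Finset.union_subset_union Finset.sdiff_subset (Finset.image_subset_image Finset.sdiff_subset)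
  have hwCL : w ∉ C ∪ L := by
    intro hh
    have := hCL hh
    rw [Finset.mem_union] at this
    rcases this with h | h
    · rw [hS', Finset.mem_sdiff] at h
      exact h.2 (Finset.mem_insert_self _ _)
    · exact hw h
  have hKCL : ∀ v ∈ K, v ∉ C ∪ L := by
    intro v hv hh
    have := hCL hh
    rw [Finset.mem_union] at this
    rcases this with h | h
    · rw [hS', Finset.mem_sdiff] at h
      exact h.2 (Finset.mem_insert_of_mem (Finset.mem_insert_of_mem hv))
    · exact hK v hv h
  have hScov : ∀ v ∈ S, v ∈ insert w (insert x K) ∨ v ∈ C ∪ L := by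
    intro v hv
    by_cases hh : v ∈ insert w (insert x K)
    · exact Or.inl hh
    · exact Or.inr (hcov (Finset.mem_sdiff.2 ⟨hv, hh⟩))
  by_cases hx : x ∈ C ∪ L
  · obtain ⟨C', L', c', hS1, he⟩ := add_star G t C L c hS w K hwCL
      (Finset.disjoint_left.2 hKCL) hne ((Finset.card_le_card (Finset.subset_insert _ _)).trans hcard)
      (fun v hv => hadj v (Finset.mem_insert_of_mem hv))
    refine ⟨C', L', c', hS1, ?_, ?_⟩
    · rw [he]
      intro v hv
      rw [Finset.mem_insert, Finset.mem_union] at hv
      rcases hv with rfl | hv | hv
      · exact hsub (Finset.mem_insert_self _ _)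
      · exact hsub (Finset.mem_insert_of_mem (Finset.mem_insert_of_mem hv))
      · exact hmono (hCL hv)
    · rw [he]
      intro v hv
      rw [Finset.mem_insert, Finset.mem_union]
      rcases hScov v hv with h | h
      · rw [Finset.mem_insert, Finset.mem_insert] at h
        rcases h with h | rfl | h
        · exact Or.inl h
        · exact Or.inr (Or.inr hx)
        · exact Or.inr (Or.inl h)
      · exact Or.inr (Or.inr h)
  · have hdis : Disjoint (insert x K) (C ∪ L) := by
      rw [Finset.disjoint_left]
      intro v hv
      rw [Finset.mem_insert] at hv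
      rcases hv with rfl | hv
      · exact hx
      · exact hKCL v hv
    obtain ⟨C', L', c', hS1, he⟩ := add_star G t C L c hS w (insert x K) hwCL hdis
      (Finset.insert_nonempty _ _) hcard hadj
    refine ⟨C', L', c', hS1, ?_, ?_⟩
    · rw [he]
      intro v hv
      rw [Finset.mem_insert, Finset.mem_union] at hv
      rcases hv with rfl | hv | hv
      · exact hsub (Finset.mem_insert_self _ _)
      · exact hsub (Finset.mem_insert_of_mem hv)
      · exact hmono (hCL hv)
    · rw [he]
      intro v hv
      rw [Finset.mem_insert, Finset.mem_union]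
      rcases hScov v hv with h | h
      · rw [Finset.mem_insert] at h
        tauto
      · exact Or.inr (Or.inr h)

private theorem main {V : Type} [Fintype V] [DecidableEq V] (G : SimpleGraph V) (t : ℕ)
    (ht : 2 ≤ t) (m : V → V) : ∀ (N : ℕ) (S : Finset V), #S ≤ N →
    (∀ v ∈ S, G.Adj v (m v)) → (∀ u, #(S.filter fun v => m v = u) ≤ t) →
    ∃ (C L : Finset V) (c : V → V), Stars G t C L c ∧
      C ∪ L ⊆ S ∪ S.image m ∧ S ⊆ C ∪ L := by
  intro N
  induction N with
  | zero =>
    intro S hS h1 h2
    have : S = ∅ := Finset.card_eq_zero.1 (Nat.le_zero.1 hS)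
    subst this
    refine ⟨∅, ∅, id, ⟨by simp, by simp, by simp⟩, by simp, by simp⟩
  | succ N ih =>
    intro S hS h1 h2
    -- the induction hypothesis for the smaller sets
    have ih' : ∀ T : Finset V, (∃ v ∈ S, v ∈ T) →
        ∃ (C L : Finset V) (c : V → V), Stars G t C L c ∧
          C ∪ L ⊆ (S \ T) ∪ (S \ T).image m ∧ (S \ T) ⊆ C ∪ L := by
      rintro T ⟨v, hv, hvT⟩
      apply ih
      · have hlt : #(S \ T) < #S := by
          apply Finset.card_lt_card
          refine ⟨Finset.sdiff_subset, fun hh => ?_⟩
          exact (Finset.mem_sdiff.1 (hh hv)).2 hvT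
        omega
      · intro v hv
        exact h1 v (Finset.sdiff_subset hv)
      · intro u
        exact (Finset.card_le_card (Finset.filter_subset_filter _ Finset.sdiff_subset)).trans (h2 u)
    have hirr : ∀ v, ¬ G.Adj v v := fun v => G.loopless.irrefl v
    have hfib : ∀ u v, v ∈ S.filter (fun v => m v = u) → G.Adj v u := by
      intro u v hv
      rw [Finset.mem_filter] at hv
      have := h1 v hv.1
      rwa [hv.2] at this
    rcases S.eq_empty_or_nonempty with rfl | hSne
    · exact ⟨∅, ∅, id, ⟨by simp, by simp, by simp⟩, by simp, by simp⟩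
    by_cases hA1 : ∃ u ∈ S.image m, Disjoint (S.filter fun v => m v = u) (S.image m)
    · -- case A1
      obtain ⟨u, hu, hdis⟩ := hA1
      obtain ⟨x, hx, hxu⟩ := Finset.mem_image.1 hu
      have hxf : x ∈ S.filter (fun v => m v = u) := Finset.mem_filter.2 ⟨hx, hxu⟩
      have hins : insert x (S.filter fun v => m v = u) = S.filter (fun v => m v = u) :=
        Finset.insert_eq_of_mem hxf
      apply step G t m S u x (S.filter fun v => m v = u) ⟨x, hxf⟩
      · rw [hins]; exact hfib u
      · rw [hins]; exact h2 u
      · rw [hins]
        intro v hv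
        rw [Finset.mem_insert] at hv
        rcases hv with rfl | hv
        · exact Finset.mem_union_right _ hu
        · exact Finset.mem_union_left _ (Finset.filter_subset _ _ hv)
      · rw [hins]
        intro hh
        obtain ⟨y, hy, hyu⟩ := Finset.mem_image.1 hh
        rw [Finset.mem_sdiff] at hy
        exact hy.2 (Finset.mem_insert_of_mem (Finset.mem_filter.2 ⟨hy.1, hyu⟩))
      · rw [hins]
        intro v hv hh
        exact Finset.disjoint_left.1 hdis hv
          (Finset.image_subset_image Finset.sdiff_subset hh)
      · rw [hins]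
        exact ih' _ ⟨x, hx, Finset.mem_insert_of_mem hxf⟩
    · push Not at hA1
      -- `m` maps `S ∩ M` onto `M`
      have hsurj : ∀ u ∈ S.image m, ∃ p, p ∈ S ∧ p ∈ S.image m ∧ m p = u := by
        intro u hu
        have := hA1 u hu
        rw [Finset.not_disjoint_iff] at this
        obtain ⟨p, hp, hpM⟩ := this
        rw [Finset.mem_filter] at hp
        exact ⟨p, hp.1, hpM, hp.2⟩
      have himg : (S ∩ S.image m).image m = S.image m := by
        apply Finset.Subset.antisymm
        · exact Finset.image_subset_image Finset.inter_subset_left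
        · intro u hu
          obtain ⟨p, hp, hpM, hpu⟩ := hsurj u hu
          exact Finset.mem_image.2 ⟨p, Finset.mem_inter.2 ⟨hp, hpM⟩, hpu⟩
      have hc1 : #(S.image m) ≤ #(S ∩ S.image m) := by
        calc #(S.image m) = #((S ∩ S.image m).image m) := by rw [himg]
          _ ≤ _ := Finset.card_image_le
      have hMS : S ∩ S.image m = S.image m :=
        Finset.eq_of_subset_of_card_le Finset.inter_subset_right hc1
      have hinj : Set.InjOn m (S ∩ S.image m : Finset V) := by
        rw [← Finset.card_image_iff, himg]
        exact le_antisymm hc1 (Finset.card_le_card Finset.inter_subset_right)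
      rw [hMS] at hinj
      have hMS' : S.image m ⊆ S := by
        intro v hv
        rw [← hMS] at hv
        exact Finset.inter_subset_left hv
      by_cases hA2 : ∃ u ∈ S.image m, ((S.filter fun v => m v = u) \ S.image m).Nonempty
      · -- case A2
        obtain ⟨u, hu, hJ⟩ := hA2
        obtain ⟨p, hp, hpM, hpu⟩ := hsurj u hu
        have hins : insert p ((S.filter fun v => m v = u) \ S.image m)
            = S.filter (fun v => m v = u) := by
          ext v
          rw [Finset.mem_insert, Finset.mem_sdiff, Finset.mem_filter]
          constructor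
          · rintro (rfl | h)
            · exact ⟨hp, hpu⟩
            · exact h.1
          · rintro ⟨hv, hvu⟩
            by_cases hvM : v ∈ S.image m
            · left
              exact hinj hvM hpM (hvu.trans hpu.symm)
            · right
              exact ⟨⟨hv, hvu⟩, hvM⟩
        apply step G t m S u p _ hJ
        · rw [hins]; exact hfib u
        · rw [hins]; exact h2 u
        · rw [hins]
          intro v hv
          rw [Finset.mem_insert] at hv
          rcases hv with rfl | hv
          · exact Finset.mem_union_right _ hu
          · exact Finset.mem_union_left _ (Finset.filter_subset _ _ hv)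
        · rw [hins]
          intro hh
          obtain ⟨y, hy, hyu⟩ := Finset.mem_image.1 hh
          rw [Finset.mem_sdiff] at hy
          exact hy.2 (Finset.mem_insert_of_mem (Finset.mem_filter.2 ⟨hy.1, hyu⟩))
        · intro v hv hh
          exact (Finset.mem_sdiff.1 hv).2 (Finset.image_subset_image Finset.sdiff_subset hh)
        · exact ih' _ ⟨p, hp, Finset.mem_insert_of_mem (Finset.mem_insert_self _ _)⟩
      · -- case A3
        push Not at hA2
        have hSM : S ⊆ S.image m := by
          intro v hv
          have h := hA2 (m v) (Finset.mem_image_of_mem m hv)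
          rw [Finset.sdiff_eq_empty_iff_subset] at h
          exact h (Finset.mem_filter.2 ⟨hv, rfl⟩)
        have hinjS : ∀ a ∈ S, ∀ b ∈ S, m a = m b → a = b := fun a ha b hb hab =>
          hinj (hSM ha) (hSM hb) hab
        obtain ⟨u, hu⟩ := hSne
        obtain ⟨p, hp, hpu⟩ := Finset.mem_image.1 (hSM hu)
        obtain ⟨q, hq, hqp⟩ := Finset.mem_image.1 (hSM hp)
        have hpadj : G.Adj p u := by have := h1 p hp; rwa [hpu] at this
        have hqadj : G.Adj q p := by have := h1 q hq; rwa [hqp] at this
        have hpu' : p ≠ u := hpadj.ne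
        by_cases hqu : q = u
        · subst hqu
          apply step G t m S q p {p} (Finset.singleton_nonempty _)
          · intro v hv
            simp only [Finset.mem_insert, Finset.mem_singleton, or_self] at hv
            rw [hv]; exact hpadj
          · simp; omega
          · intro v hv
            simp only [Finset.mem_insert, Finset.mem_singleton, or_self] at hv
            rcases hv with rfl | rfl
            · exact Finset.mem_union_left _ hu
            · exact Finset.mem_union_left _ hp
          · intro hh
            obtain ⟨y, hy, hyu⟩ := Finset.mem_image.1 hh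
            rw [Finset.mem_sdiff] at hy
            have : y = p := hinjS y hy.1 p hp (hyu.trans hpu.symm)
            exact hy.2 (by simp [this])
          · intro v hv hh
            rw [Finset.mem_singleton] at hv
            subst hv
            obtain ⟨y, hy, hyu⟩ := Finset.mem_image.1 hh
            rw [Finset.mem_sdiff] at hy
            have : y = q := hinjS y hy.1 q hq (hyu.trans hqp.symm)
            exact hy.2 (by simp [this])
          · exact ih' _ ⟨q, hu, Finset.mem_insert_self _ _⟩
        · apply step G t m S p q {u} (Finset.singleton_nonempty _)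
          · intro v hv
            simp only [Finset.mem_insert, Finset.mem_singleton] at hv
            rcases hv with rfl | rfl
            · exact hqadj
            · exact hpadj.symm
          · exact (Finset.card_insert_le _ _).trans (by simpa using ht)
          · intro v hv
            simp only [Finset.mem_insert, Finset.mem_singleton] at hv
            rcases hv with rfl | rfl | rfl
            · exact Finset.mem_union_left _ hp
            · exact Finset.mem_union_left _ hq
            · exact Finset.mem_union_left _ hu
          · intro hh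
            obtain ⟨y, hy, hyu⟩ := Finset.mem_image.1 hh
            rw [Finset.mem_sdiff] at hy
            have : y = q := hinjS y hy.1 q hq (hyu.trans hqp.symm)
            exact hy.2 (by simp [this])
          · intro v hv hh
            rw [Finset.mem_singleton] at hv
            subst hv
            obtain ⟨y, hy, hyu⟩ := Finset.mem_image.1 hh
            rw [Finset.mem_sdiff] at hy
            have : y = p := hinjS y hy.1 p hp (hyu.trans hpu.symm)
            exact hy.2 (by simp [this])
          · exact ih' _ ⟨p, hp, Finset.mem_insert_self _ _⟩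

theorem star_of_assign {V : Type} [Fintype V] [DecidableEq V] (G : SimpleGraph V) (t : ℕ) (ht : 2 ≤ t)
    (m : V → V) (S : Finset V) (h1 : ∀ v ∈ S, G.Adj v (m v))
    (h2 : ∀ u, #(S.filter fun v => m v = u) ≤ t) :
    ∃ (C L : Finset V) (c : V → V), Disjoint C L ∧ C ∪ L ⊆ S ∪ S.image m ∧ S ⊆ C ∪ L ∧
      (∀ v ∈ L, c v ∈ C ∧ G.Adj v (c v)) ∧
      ∀ u ∈ C, 1 ≤ #(L.filter fun v => c v = u) ∧ #(L.filter fun v => c v = u) ≤ t := by
  obtain ⟨C, L, c, ⟨hd, hl, hc⟩, hsub, hcov⟩ := main G t ht m #S S le_rfl h1 h2
  exact ⟨C, L, c, hd, hsub, hcov, hl, hc⟩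

end Pool.Agent.H17.HX
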