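import Pool.Agent.H17.HX.Base

set_option autoImplicit false

/-! Project HX, stub SP2 (helper69). -/

namespace Pool.Agent.H17.HX

open Finset

theorem assign_of_star {V : Type} [Fintype V] [DecidableEq V] (G : SimpleGraph V) (t : ℕ) (ht : 1 ≤ t)
    (C L : Finset V) (c : V → V) (h0 : Disjoint C L) (h1 : ∀ v ∈ L, c v ∈ C ∧ G.Adj v (c v))
    (h2 : ∀ u ∈ C, 1 ≤ #(L.filter fun v => c v = u) ∧ #(L.filter fun v => c v = u) ≤ t) :
    ∃ m : V → V, (∀ v ∈ C ∪ L, G.Adj v (m v)) ∧ ∀ u, #((C ∪ L).filter fun v => m v = u) ≤ t := by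
  classical
  have hleaf : ∀ u ∈ C, ∃ v, v ∈ L ∧ c v = u := by
    intro u hu
    obtain ⟨v, hv⟩ := Finset.card_pos.1 (h2 u hu).1
    rw [Finset.mem_filter] at hv
    exact ⟨v, hv.1, hv.2⟩
  choose! l hl using hleaf
  have hCL : ∀ v ∈ C, v ∉ L := fun v hv => Finset.disjoint_left.1 h0 hv
  refine ⟨fun v => if v ∈ L then c v else l v, ?_, ?_⟩
  · intro v hv
    rw [Finset.mem_union] at hv
    by_cases hvL : v ∈ L
    · simp only [hvL, if_true]
      exact (h1 v hvL).2
    · have hvC : v ∈ C := by tauto
      simp only [hvL, if_false]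
      have h3 := (h1 (l v) (hl v hvC).1).2
      rw [(hl v hvC).2] at h3
      exact h3.symm
  · intro u
    by_cases huC : u ∈ C
    · refine (Finset.card_le_card ?_).trans (h2 u huC).2
      intro v hv
      rw [Finset.mem_filter, Finset.mem_union] at hv
      rw [Finset.mem_filter]
      obtain ⟨hv, he⟩ := hv
      beta_reduce at he
      by_cases hvL : v ∈ L
      · rw [if_pos hvL] at he
        exact ⟨hvL, he⟩
      · rw [if_neg hvL] at he
        have hvC : v ∈ C := by tauto
        exact absurd (he ▸ (hl v hvC).1) (hCL u huC)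
    · refine le_trans ?_ ht
      rw [Finset.card_le_one]
      have key : ∀ v ∈ (C ∪ L).filter (fun v => (if v ∈ L then c v else l v) = u),
          v = c u := by
        intro v hv
        rw [Finset.mem_filter, Finset.mem_union] at hv
        obtain ⟨hv, he⟩ := hv
        by_cases hvL : v ∈ L
        · rw [if_pos hvL] at he
          exact absurd (he ▸ (h1 v hvL).1) huC
        · rw [if_neg hvL] at he
          have hvC : v ∈ C := by tauto
          rw [← he]
          exact (hl v hvC).2.symm
      intro a ha b hb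
      rw [key a ha, key b hb]

end Pool.Agent.H17.HX
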