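import Pool.Agent.H17.HX.Base

set_option autoImplicit false

/-! # HX-SUP: supermodularity (helper71) -/

namespace Pool.Agent.H17.HX

open Finset

variable {n : ℕ}

theorem sup_incr {φ : ℕ → ℝ} (hφ : Adm n φ) (i : ℕ) : ∀ k : ℕ, i + k + 1 ≤ n →
    φ (i + 1) - φ i ≤ φ (i + k + 1) - φ (i + k) := by
  intro k
  induction k with
  | zero => intro _; simp
  | succ k ih =>
    intro h
    have h1 := ih (by omega)
    have h2 := hφ.cvx (i + k) (by omega)
    have h3 : i + (k + 1) + 1 = i + k + 2 := by ring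
    have h4 : i + (k + 1) = i + k + 1 := by ring
    rw [h3, h4]
    linarith

theorem sup_cvx {φ : ℕ → ℝ} (hφ : Adm n φ) (p y : ℕ) (hpy : p ≤ y) : ∀ k : ℕ, y + k ≤ n →
    φ (p + k) - φ p ≤ φ (y + k) - φ y := by
  intro k
  induction k with
  | zero => intro _; simp
  | succ k ih =>
    intro h
    have h1 := ih (by omega)
    obtain ⟨l, rfl⟩ := Nat.exists_eq_add_of_le hpy
    have h2 := sup_incr hφ (p + k) l (by omega)
    have h3 : p + l + (k + 1) = p + k + l + 1 := by ring
    have h4 : p + l + k = p + k + l := by ring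
    have h5 : p + (k + 1) = p + k + 1 := by ring
    rw [h3, h5]
    rw [h4] at h1
    linarith

/-- HX-SUP. Supermodularity. -/
theorem sup {φ : ℕ → ℝ} (hφ : Adm n φ) (G : SimpleGraph (Fin n)) (X Y : Finset (Fin n)) :
    F φ G X + F φ G Y ≤ F φ G (X ∩ Y) + F φ G (X ∪ Y) := by
  have hnb : #(nb G (X ∩ Y)) + #(nb G (X ∪ Y)) ≤ #(nb G X) + #(nb G Y) := by
    have h1 : nb G (X ∩ Y) ⊆ nb G X ∩ nb G Y :=
      Finset.subset_inter (nb_mono Finset.inter_subset_left) (nb_mono Finset.inter_subset_right)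
    have h2 := Finset.card_le_card h1
    have h3 := Finset.card_union_add_card_inter (nb G X) (nb G Y)
    rw [nb_union]
    omega
  have hc := Finset.card_union_add_card_inter X Y
  have h1 : #(X ∩ Y) ≤ #X := Finset.card_le_card Finset.inter_subset_left
  have h2 : #(X ∩ Y) ≤ #Y := Finset.card_le_card Finset.inter_subset_right
  have h3 : #(X ∪ Y) ≤ n := by
    have := Finset.card_le_univ (X ∪ Y)
    rwa [Fintype.card_fin] at this
  obtain ⟨k, hk⟩ := Nat.exists_eq_add_of_le h1
  have h4 : #(X ∪ Y) = #Y + k := by omega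
  have h5 := sup_cvx hφ #(X ∩ Y) #Y h2 k (by omega)
  rw [← hk, ← h4] at h5
  have h6 : (#(nb G (X ∩ Y)) : ℝ) + #(nb G (X ∪ Y)) ≤ #(nb G X) + #(nb G Y) := by
    exact_mod_cast hnb
  unfold F
  linarith

end Pool.Agent.H17.HX
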